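import Pool.Agent.H559.PA.Pal

set_option autoImplicit false

/-! # The palindromes, final form -/

open Finset Filter Topology MeasureTheory ProbabilityTheory
open Pool.Agent.T2H32.BF (Model V V_pos V_anti)
open Pool.Agent.H559.HY (RS WW)
open Pool.Agent.H559.BS (Limit log_top)
open Pool.Agent.H861R2.Pal (palin)

namespace Pool.Agent.H559.PA

theorem z_top (z : ℕ → ℕ) (hz : Limit z) : Tendsto z atTop atTop := by
  refine tendsto_atTop_atTop_of_monotone hz.1 fun b => ?_
  by_contra hcon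
  push Not at hcon
  have h1 : Tendsto (fun k : ℕ => V b * Real.log k) atTop atTop := log_top.const_mul_atTop (V_pos b)
  obtain ⟨k, h2, h3, h4⟩ := ((h1.eventually_ge_atTop 3).and ((hz.2.eventually (gt_mem_nhds (show (1 : ℝ) < 2 by norm_num))).and
    (log_top.eventually_ge_atTop 1))).exists
  have h5 := V_anti (hcon k).le
  nlinarith

/-- a fixed prime divides only finitely many random primes -/
theorem no_small (z : ℕ → ℕ) (hz : Limit z) (c : ℝ) (hc : 1 < c) (b : ℕ → ℕ) (q : ℕ) (hq : q.Prime) :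
    ∀ᶠ v : ℕ in atTop, v ∈ RS z (WW c) b → ¬ q ∣ v := by
  have h1 : Tendsto (WW c) atTop atTop := by
    have h2 : Tendsto (fun v : ℕ => Real.log v ^ c) atTop atTop := (tendsto_rpow_atTop (by linarith)).comp log_top
    exact tendsto_nat_floor_atTop.comp h2
  filter_upwards [h1.eventually_ge_atTop q, (z_top z hz).eventually_ge_atTop q] with v a1 a2 hv
  exact ((Pool.Agent.H559.SQ.mem_RS z (WW c) b v).1 hv).1.2 q a2 a1 hq

open Classical in
/-- **The law for the palindromes.** -/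
theorem pal_all {Ω : Type*} [MeasurableSpace Ω] {P : Measure Ω} {a : ℕ → Ω → ℕ} (h : Model P a) (z : ℕ → ℕ)
    (hz : Limit z) (c : ℝ) (hc : 1 < c) :
    ∀ᵐ ω ∂P, ∀ m r : ℕ, 0 < m → m.Coprime 10 → r.Coprime m →
      (∀ d ∈ TD, Tendsto (fun L : ℕ => (((palin L).filter (fun v => v ∈ RS z (WW c) (fun q => a q ω) ∧ v % 10 = d ∧
        v % m = r % m)).card : ℝ) * (L * Real.log 10) / 10 ^ L) atTop (𝓝 (5 / 4 / m.totient))) ∧
      Tendsto (fun L : ℕ => (((palin L).filter (fun v => v ∈ RS z (WW c) (fun q => a q ω) ∧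
        v % m = r % m)).card : ℝ) * (L * Real.log 10) / 10 ^ L) atTop (𝓝 (5 / m.totient)) := by
  have h1 : ∀ᵐ ω ∂P, ∀ d m r : ℕ, d ∈ TD → 0 < m → m.Coprime 10 → r.Coprime m →
      Tendsto (fun L : ℕ => (((palin L).filter (fun v => v ∈ RS z (WW c) (fun q => a q ω) ∧ v % 10 = d ∧
        v % m = r % m)).card : ℝ) * (L * Real.log 10) / 10 ^ L) atTop (𝓝 (5 / 4 / m.totient)) := by
    refine ae_all_iff.2 fun d => ae_all_iff.2 fun m => ae_all_iff.2 fun r => ?_
    by_cases h2 : d ∈ TD ∧ 0 < m ∧ m.Coprime 10 ∧ r.Coprime m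
    · filter_upwards [pal_law h z hz c hc d h2.1 m r h2.2.1 h2.2.2.1 h2.2.2.2] with ω hω _ _ _ _
      exact hω
    · exact Eventually.of_forall fun ω a1 a2 a3 a4 => absurd ⟨a1, a2, a3, a4⟩ h2
  filter_upwards [h1] with ω hω m r hm hmc hr
  refine ⟨fun d hd => hω d m r hd hm hmc hr, ?_⟩
  have h2 : Tendsto (fun L : ℕ => ∑ d ∈ TD, (((palin L).filter (fun v => v ∈ RS z (WW c) (fun q => a q ω) ∧ v % 10 = d ∧
        v % m = r % m)).card : ℝ) * (L * Real.log 10) / 10 ^ L) atTop (𝓝 (∑ _d ∈ TD, 5 / 4 / (m.totient : ℝ))) :=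
    tendsto_finsetSum _ fun d hd => hω d m r hd hm hmc hr
  have hTD : TD.card = 4 := by decide
  rw [sum_const, hTD, nsmul_eq_mul] at h2
  have e1 : ((4 : ℕ) : ℝ) * (5 / 4 / (m.totient : ℝ)) = 5 / m.totient := by
    push_cast
    ring
  rw [e1] at h2
  refine h2.congr' ?_
  have ht : Tendsto (fun L : ℕ => 10 ^ (2 * L)) atTop atTop :=
    (tendsto_pow_atTop_atTop_of_one_lt (show 1 < 10 by norm_num)).comp
      (tendsto_id.const_mul_atTop' (show 0 < 2 by norm_num))
  obtain ⟨n2, hn2⟩ := eventually_atTop.1 (no_small z hz c hc (fun q => a q ω) 2 Nat.prime_two)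
  obtain ⟨n5, hn5⟩ := eventually_atTop.1 (no_small z hz c hc (fun q => a q ω) 5 Nat.prime_five)
  filter_upwards [ht.eventually_ge_atTop n2, ht.eventually_ge_atTop n5] with L hL2 hL5
  rw [← sum_div, ← sum_mul, ← Nat.cast_sum]
  congr 3
  rw [← card_biUnion]
  · congr 1
    ext v
    simp only [mem_biUnion, mem_filter]
    constructor
    · rintro ⟨d, _, a1, a2, _, a3⟩
      exact ⟨a1, a2, a3⟩
    · rintro ⟨a1, a2, a3⟩
      refine ⟨v % 10, ?_, a1, a2, rfl, a3⟩
      have hv : 10 ^ (2 * L) ≤ v := (mem_filter.1 a1).2.1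
      have b2 := hn2 v (hL2.trans hv) a2
      have b5 := hn5 v (hL5.trans hv) a2
      have h10 : v % 10 < 10 := Nat.mod_lt _ (by norm_num)
      unfold TD
      rw [mem_filter, mem_Icc]
      have c2 : ¬ 2 ∣ v % 10 := by omega
      have c5 : ¬ 5 ∣ v % 10 := by omega
      generalize v % 10 = t at *
      interval_cases t <;> simp_all <;> decide
  · intro d _ d' _ hdd
    rw [Function.onFun, disjoint_left]
    intro v h3 h4
    rw [mem_filter] at h3 h4
    exact hdd (h3.2.2.1.symm.trans h4.2.2.1)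

end Pool.Agent.H559.PA
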