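import Pool.Graph.R_pool_sql_team_seeded_707910d6.T2H32.GB.FLg

set_option autoImplicit false

/-! # The fundamental lemma for the sets with a level of distribution -/

open Finset Filter Topology
open Pool.Agent.T2H32.GM (Jf J1 J2 J3)

namespace Pool.Agent.H559.PA

/-- the error of the modulus `m` -/
noncomputable def er (S : Finset ℕ) (X : ℝ) (m : ℕ) : ℝ := |((S.filter (fun v => m ∣ v)).card : ℝ) - X / m|

theorem er_nonneg (S : Finset ℕ) (X : ℝ) (m : ℕ) : 0 ≤ er S X m := abs_nonneg _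

/-- the exact sieve by a few primes -/
theorem few (S : Finset ℕ) (X : ℝ) (s : Finset ℕ) : (∀ p ∈ s, p.Prime) → ∀ q : ℕ, 0 < q → (∀ p ∈ s, Nat.Coprime p q) →
    |((S.filter (fun v => q ∣ v ∧ ∀ p ∈ s, ¬ p ∣ v)).card : ℝ) - X / q * ∏ p ∈ s, (1 - 1 / (p : ℝ))| ≤
      ∑ t ∈ s.powerset, er S X (q * ∏ p ∈ t, p) := by
  classical
  induction s using Finset.induction_on with
  | empty =>
    intro _ q _ _
    simp [er]
  | insert a s ha ih =>
    intro hs q hq hc
    have hap : a.Prime := hs a (mem_insert_self _ _)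
    have hs' : ∀ p ∈ s, p.Prime := fun p hp => hs p (mem_insert_of_mem hp)
    have h1 := ih hs' q hq (fun p hp => hc p (mem_insert_of_mem hp))
    have hcq : ∀ p ∈ s, Nat.Coprime p (q * a) := fun p hp => Nat.Coprime.mul_right (hc p (mem_insert_of_mem hp))
      ((Nat.coprime_primes (hs' p hp) hap).2 (fun h => ha (h ▸ hp)))
    have h2 := ih hs' (q * a) (Nat.mul_pos hq hap.pos) hcq
    have hcard : ((S.filter (fun v => q ∣ v ∧ ∀ p ∈ insert a s, ¬ p ∣ v)).card : ℝ) =
        ((S.filter (fun v => q ∣ v ∧ ∀ p ∈ s, ¬ p ∣ v)).card : ℝ) -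
          ((S.filter (fun v => q * a ∣ v ∧ ∀ p ∈ s, ¬ p ∣ v)).card : ℝ) := by
      have h3 : (S.filter (fun v => q ∣ v ∧ ∀ p ∈ s, ¬ p ∣ v)).card =
          (S.filter (fun v => q ∣ v ∧ ∀ p ∈ insert a s, ¬ p ∣ v)).card +
          (S.filter (fun v => q * a ∣ v ∧ ∀ p ∈ s, ¬ p ∣ v)).card := by
        rw [← card_union_of_disjoint]
        · congr 1
          ext v
          simp only [mem_filter, mem_union, mem_insert, forall_eq_or_imp]
          constructor
          · rintro ⟨a1, a2, a3⟩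
            by_cases h4 : a ∣ v
            · right
              exact ⟨a1, Nat.Coprime.mul_dvd_of_dvd_of_dvd (hc a (mem_insert_self _ _)).symm a2 h4, a3⟩
            · left
              exact ⟨a1, a2, h4, a3⟩
          · rintro (⟨a1, a2, a3, a4⟩ | ⟨a1, a2, a3⟩)
            · exact ⟨a1, a2, a4⟩
            · exact ⟨a1, (Dvd.intro _ rfl : q ∣ q * a).trans a2, a3⟩
        · rw [disjoint_left]
          intro v h4 h5
          rw [mem_filter] at h4 h5
          exact h4.2.2 a (mem_insert_self _ _) ((Dvd.intro_left _ rfl : a ∣ q * a).trans h5.2.1)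
      rw [h3]
      push_cast
      ring
    have ha0 : (a : ℝ) ≠ 0 := by exact_mod_cast hap.ne_zero
    have hq0 : (q : ℝ) ≠ 0 := by exact_mod_cast hq.ne'
    have hprod : X / q * ∏ p ∈ insert a s, (1 - 1 / (p : ℝ)) =
        X / q * ∏ p ∈ s, (1 - 1 / (p : ℝ)) - X / ((q * a : ℕ) : ℝ) * ∏ p ∈ s, (1 - 1 / (p : ℝ)) := by
      rw [prod_insert ha]
      push_cast
      field_simp
    have hsum : ∑ t ∈ (insert a s).powerset, er S X (q * ∏ p ∈ t, p) =
        ∑ t ∈ s.powerset, er S X (q * ∏ p ∈ t, p) + ∑ t ∈ s.powerset, er S X (q * a * ∏ p ∈ t, p) := by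
      rw [sum_powerset_insert ha]
      congr 1
      refine sum_congr rfl fun t ht => ?_
      rw [prod_insert (fun h => ha (mem_powerset.1 ht h)), mul_assoc]
    rw [hcard, hprod, hsum]
    have e : ∀ x y u v : ℝ, (x - y) - (u - v) = (x - u) - (y - v) := fun x y u v => by ring
    rw [e]
    exact (abs_sub _ _).trans (add_le_add h1 h2)

/-- **The fundamental lemma.** -/
theorem gsieve (ε : ℝ) (hε : 0 < ε) : ∃ B : ℕ, ∀ (q0 w : ℕ) (S : Finset ℕ) (X E : ℝ), 1 ≤ w → 0 ≤ X →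
    ∑ m ∈ (Icc 1 (B * w ^ B)).filter (fun m => m.Coprime q0), er S X m ≤ E →
    |((S.filter (fun v => ∀ p ≤ w, p.Prime → p.Coprime q0 → ¬ p ∣ v)).card : ℝ) -
        X * ∏ p ∈ (range (w + 1)).filter (fun p => p.Prime ∧ p.Coprime q0), (1 - 1 / (p : ℝ))| ≤
      ε * (X * ∏ p ∈ (range (w + 1)).filter (fun p => p.Prime ∧ p.Coprime q0), (1 - 1 / (p : ℝ))) + 3 * w * E := by
  classical
  obtain ⟨C0, hC0, hfl⟩ := Pool.Agent.TH882.FL.fla 1
  obtain ⟨n, hn⟩ := exists_pow_lt_of_lt_one hε (show (1 / 2 : ℝ) < 1 by norm_num)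
  set b := max n C0 with hb
  have hbC : C0 ≤ b := le_max_right _ _
  have hbε : (1 / 2 : ℝ) ^ b ≤ ε :=
    (pow_le_pow_of_le_one (by norm_num) (by norm_num) (le_max_left _ _)).trans hn.le
  set Q1 := ∏ p ∈ (range (C0 + 1)).filter Nat.Prime, p with hQ1
  have hQ1pos : 0 < Q1 := prod_pos fun p hp => (mem_filter.1 hp).2.pos
  refine ⟨Q1 * 4 ^ (C0 * b) + 2 * (C0 * b), fun q0 w S X E hw hX hE => ?_⟩
  set B := Q1 * 4 ^ (C0 * b) + 2 * (C0 * b) with hB
  set z1 := min C0 w with hz1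
  set sm := (range (z1 + 1)).filter (fun p => p.Prime ∧ p.Coprime q0) with hsm
  set Pp := (Ioc z1 w).filter (fun p => p.Prime ∧ p.Coprime q0) with hPp
  have hsm1 : ∀ p ∈ sm, p.Prime ∧ p.Coprime q0 ∧ p ≤ z1 := fun p hp => by
    rw [hsm, mem_filter, mem_range] at hp
    exact ⟨hp.2.1, hp.2.2, by omega⟩
  have hPp1 : ∀ p ∈ Pp, p.Prime ∧ p.Coprime q0 ∧ z1 < p ∧ p ≤ w := fun p hp => by
    rw [hPp, mem_filter, mem_Ioc] at hp
    exact ⟨hp.2.1, hp.2.2, hp.1.1, hp.1.2⟩
  have hPC : ∀ p ∈ Pp, C0 < p := by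
    intro p hp
    obtain ⟨_, _, h1, h2⟩ := hPp1 p hp
    rw [hz1] at h1
    rcases min_lt_iff.1 h1 with h | h
    · exact h
    · omega
  set A := X * ∏ p ∈ sm, (1 - 1 / (p : ℝ)) with hA
  have hfac : ∀ p : ℕ, p.Prime → (0 : ℝ) ≤ 1 - 1 / (p : ℝ) := fun p hp => by
    have h2 : (2 : ℝ) ≤ p := by exact_mod_cast hp.two_le
    have : 1 / (p : ℝ) ≤ 1 := by
      rw [div_le_one (by linarith)]
      linarith
    linarith
  have hA0 : 0 ≤ A := mul_nonneg hX (prod_nonneg fun p hp => hfac p (hsm1 p hp).1)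
  have hfl2 := hfl b (Jf w) C0 Pp (fun p => 1 / (p : ℝ)) (fun _ => {0}) hbC le_rfl
    (fun p hp => ⟨(hPp1 p hp).1, hPC p hp, (hPp1 p hp).2.2.2.trans (J1 w)⟩) (fun p hp => by simp)
    (fun p hp => by
      have hp2 : (2 : ℝ) ≤ p := by exact_mod_cast (hPp1 p hp).1.two_le
      refine ⟨by positivity, ?_⟩
      apply one_div_le_one_div_of_le (by linarith)
      linarith) (S.filter (fun v => ∀ p ∈ sm, ¬ p ∣ v)) (fun _ => 1) A
    (fun m => ∑ t ∈ sm.powerset, er S X (m * ∏ p ∈ t, p)) (fun _ _ => zero_le_one) hA0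
    (fun m => sum_nonneg fun t _ => er_nonneg _ _ _) (by
      intro T hT _ c hc
      have hc0 : ∀ p ∈ T, c p = 0 := fun p hp => mem_singleton.1 (hc p hp)
      have hTp : ∀ p ∈ T, p.Prime := fun p hp => (hPp1 p (hT hp)).1
      have hpos : 0 < ∏ p ∈ T, p := prod_pos fun p hp => (hTp p hp).pos
      have h1 := few S X sm (fun p hp => (hsm1 p hp).1) (∏ p ∈ T, p) hpos (fun p hp => by
        refine Nat.Coprime.prod_right fun r hr => ?_
        refine (Nat.coprime_primes (hsm1 p hp).1 (hTp r hr)).2 ?_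
        have := (hsm1 p hp).2.2
        have := (hPp1 r (hT hr)).2.2.1
        omega)
      have e1 : ((S.filter (fun v => ∀ p ∈ sm, ¬ p ∣ v)).filter (fun n => ∀ p ∈ T, n % p = c p)) =
          S.filter (fun v => (∏ p ∈ T, p) ∣ v ∧ ∀ p ∈ sm, ¬ p ∣ v) := by
        ext v
        simp only [mem_filter]
        constructor
        · rintro ⟨⟨a1, a2⟩, a3⟩
          refine ⟨a1, ?_, a2⟩
          refine Finset.prod_primes_dvd _ (fun p hp => (hTp p hp).prime) (fun p hp => ?_)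
          have := a3 p hp
          rw [hc0 p hp] at this
          exact Nat.dvd_of_mod_eq_zero this
        · rintro ⟨a1, a2, a3⟩
          refine ⟨⟨a1, a3⟩, fun p hp => ?_⟩
          rw [hc0 p hp]
          exact Nat.mod_eq_zero_of_dvd ((Finset.dvd_prod_of_mem _ hp).trans a2)
      rw [e1, sum_const, nsmul_eq_mul, mul_one]
      have e2 : A * ∏ p ∈ T, 1 / (p : ℝ) = X / ((∏ p ∈ T, p : ℕ) : ℝ) * ∏ p ∈ sm, (1 - 1 / (p : ℝ)) := by
        rw [hA, Nat.cast_prod]
        simp only [one_div]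
        rw [prod_inv_distrib]
        ring
      rw [e2]
      exact h1)
  have e3 : (S.filter (fun v => ∀ p ∈ sm, ¬ p ∣ v)).filter (fun n => ∀ p ∈ Pp, n % p ∉ ({0} : Finset ℕ)) =
      S.filter (fun v => ∀ p ≤ w, p.Prime → p.Coprime q0 → ¬ p ∣ v) := by
    ext v
    simp only [mem_filter, mem_singleton]
    constructor
    · rintro ⟨⟨a1, a2⟩, a3⟩
      refine ⟨a1, fun p hp hpp hpc hd => ?_⟩
      rcases le_or_gt p z1 with h4 | h4
      · exact a2 p (mem_filter.2 ⟨mem_range.2 (by omega), hpp, hpc⟩) hd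
      · exact a3 p (mem_filter.2 ⟨mem_Ioc.2 ⟨h4, hp⟩, hpp, hpc⟩) (Nat.mod_eq_zero_of_dvd hd)
    · rintro ⟨a1, a2⟩
      refine ⟨⟨a1, fun p hp => a2 p ((hsm1 p hp).2.2.trans (min_le_right _ _)) (hsm1 p hp).1 (hsm1 p hp).2.1⟩,
        fun p hp h4 => ?_⟩
      exact a2 p (hPp1 p hp).2.2.2 (hPp1 p hp).1 (hPp1 p hp).2.1 (Nat.dvd_of_mod_eq_zero h4)
  have e4 : A * ∏ p ∈ Pp, (1 - ((({0} : Finset ℕ).card : ℕ) : ℝ) * (1 / (p : ℝ))) =
      X * ∏ p ∈ (range (w + 1)).filter (fun p => p.Prime ∧ p.Coprime q0), (1 - 1 / (p : ℝ)) := by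
    have h5 : (range (w + 1)).filter (fun p => p.Prime ∧ p.Coprime q0) = sm ∪ Pp := by
      ext p
      simp only [hsm, hPp, mem_filter, mem_range, mem_union, mem_Ioc]
      have : z1 ≤ w := min_le_right _ _
      constructor
      · rintro ⟨a1, a2⟩
        rcases le_or_gt p z1 with h4 | h4
        · exact Or.inl ⟨by omega, a2⟩
        · exact Or.inr ⟨⟨h4, by omega⟩, a2⟩
      · rintro (⟨a1, a2⟩ | ⟨⟨a1, a2⟩, a3⟩)
        · exact ⟨by omega, a2⟩
        · exact ⟨by omega, a3⟩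
    have h6 : Disjoint sm Pp := by
      rw [disjoint_left]
      intro p h7 h8
      have := (hsm1 p h7).2.2
      have := (hPp1 p h8).2.2.1
      omega
    rw [h5, prod_union h6, hA, mul_assoc]
    congr 2
    refine prod_congr rfl fun p _ => ?_
    rw [card_singleton, Nat.cast_one, one_mul]
  rw [e3, e4, sum_const, nsmul_eq_mul, mul_one] at hfl2
  refine hfl2.trans ?_
  refine add_le_add (mul_le_mul_of_nonneg_right hbε (mul_nonneg hX (prod_nonneg fun p hp => hfac p (mem_filter.1 hp).2.1))) ?_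
  -- the error terms
  have hJ : ((Jf w : ℕ) : ℝ) + 2 ≤ 3 * w := by exact_mod_cast J3 w hw
  have hE0 : 0 ≤ E := le_trans (sum_nonneg fun m _ => er_nonneg _ _ _) hE
  refine mul_le_mul hJ ?_ (sum_nonneg fun T _ => mul_nonneg (by positivity) (sum_nonneg fun t _ => er_nonneg _ _ _))
    (by positivity)
  refine le_trans ?_ hE
  have hlev : (2 ^ 2 ^ Jf w) ^ (C0 * b) * Q1 ≤ B * w ^ B := by
    have h7 : (2 ^ 2 ^ Jf w) ^ (C0 * b) ≤ (4 * w ^ 2) ^ (C0 * b) := Nat.pow_le_pow_left (J2 w hw) _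
    calc (2 ^ 2 ^ Jf w) ^ (C0 * b) * Q1 ≤ (4 * w ^ 2) ^ (C0 * b) * Q1 := Nat.mul_le_mul_right _ h7
      _ = (Q1 * 4 ^ (C0 * b)) * w ^ (2 * (C0 * b)) := by
          rw [mul_pow, ← pow_mul]
          ring
      _ ≤ B * w ^ B := Nat.mul_le_mul (by omega) (Nat.pow_le_pow_right hw (by omega))
  calc ∑ T ∈ Pp.powerset.filter (fun T : Finset ℕ => ∏ p ∈ T, p ≤ (2 ^ 2 ^ Jf w) ^ (C0 * b)),
        ((1 : ℕ) : ℝ) ^ T.card * ∑ t ∈ sm.powerset, er S X ((∏ p ∈ T, p) * ∏ p ∈ t, p) =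
      ∑ x ∈ (Pp.powerset.filter (fun T : Finset ℕ => ∏ p ∈ T, p ≤ (2 ^ 2 ^ Jf w) ^ (C0 * b))) ×ˢ sm.powerset,
        er S X ((∏ p ∈ x.1, p) * ∏ p ∈ x.2, p) := by
        rw [sum_product]
        refine sum_congr rfl fun T _ => ?_
        rw [Nat.cast_one, one_pow, one_mul]
    _ = ∑ m ∈ ((Pp.powerset.filter (fun T : Finset ℕ => ∏ p ∈ T, p ≤ (2 ^ 2 ^ Jf w) ^ (C0 * b))) ×ˢ sm.powerset).image
          (fun x => (∏ p ∈ x.1, p) * ∏ p ∈ x.2, p), er S X m := by
        rw [sum_image]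
        rintro ⟨T, t⟩ h1 ⟨T', t'⟩ h1' h2
        simp only [coe_product, Set.mem_prod, mem_coe, mem_filter, mem_powerset] at h1 h1'
        obtain ⟨⟨a1, _⟩, a2⟩ := h1
        obtain ⟨⟨a1', _⟩, a2'⟩ := h1'
        dsimp only at h2
        have hT : ∀ T t : Finset ℕ, T ⊆ Pp → t ⊆ sm → Nat.primeFactors ((∏ p ∈ T, p) * ∏ p ∈ t, p) = T ∪ t := by
          intro T t h3 h4
          have h5 : Disjoint T t := by
            rw [disjoint_left]
            intro p h7 h8
            have := (hsm1 p (h4 h8)).2.2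
            have := (hPp1 p (h3 h7)).2.2.1
            omega
          rw [← prod_union h5]
          refine Nat.primeFactors_prod fun p hp => ?_
          rcases mem_union.1 hp with h6 | h6
          · exact (hPp1 p (h3 h6)).1
          · exact (hsm1 p (h4 h6)).1
        have h3 : T ∪ t = T' ∪ t' := by rw [← hT T t a1 a2, ← hT T' t' a1' a2', h2]
        have hz : ∀ T t : Finset ℕ, T ⊆ Pp → t ⊆ sm → (T ∪ t).filter (fun p => z1 < p) = T ∧
            (T ∪ t).filter (fun p => ¬ z1 < p) = t := by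
          intro T t h3 h4
          constructor
          · ext p
            simp only [mem_filter, mem_union]
            constructor
            · rintro ⟨h5 | h5, h6⟩
              · exact h5
              · have := (hsm1 p (h4 h5)).2.2
                omega
            · intro h5
              exact ⟨Or.inl h5, (hPp1 p (h3 h5)).2.2.1⟩
          · ext p
            simp only [mem_filter, mem_union]
            constructor
            · rintro ⟨h5 | h5, h6⟩
              · exact absurd (hPp1 p (h3 h5)).2.2.1 h6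
              · exact h5
            · intro h5
              exact ⟨Or.inr h5, not_lt.2 (hsm1 p (h4 h5)).2.2⟩
        refine Prod.ext ?_ ?_
        · show T = T'
          rw [← (hz T t a1 a2).1, h3, (hz T' t' a1' a2').1]
        · show t = t'
          rw [← (hz T t a1 a2).2, h3, (hz T' t' a1' a2').2]
    _ ≤ ∑ m ∈ (Icc 1 (B * w ^ B)).filter (fun m => m.Coprime q0), er S X m := by
        refine sum_le_sum_of_subset_of_nonneg ?_ fun m _ _ => er_nonneg _ _ _
        intro m hm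
        rw [mem_image] at hm
        obtain ⟨⟨T, t⟩, h1, h2⟩ := hm
        simp only [mem_product, mem_filter, mem_powerset] at h1
        obtain ⟨⟨a1, a3⟩, a2⟩ := h1
        have hTp : ∀ p ∈ T, p.Prime ∧ p.Coprime q0 := fun p hp => ⟨(hPp1 p (a1 hp)).1, (hPp1 p (a1 hp)).2.1⟩
        have htp : ∀ p ∈ t, p.Prime ∧ p.Coprime q0 := fun p hp => ⟨(hsm1 p (a2 hp)).1, (hsm1 p (a2 hp)).2.1⟩
        rw [← h2, mem_filter, mem_Icc]
        have hp1 : 0 < ∏ p ∈ T, p := prod_pos fun p hp => (hTp p hp).1.pos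
        have hp2 : 0 < ∏ p ∈ t, p := prod_pos fun p hp => (htp p hp).1.pos
        refine ⟨⟨Nat.mul_pos hp1 hp2, ?_⟩, ?_⟩
        · refine le_trans ?_ hlev
          refine Nat.mul_le_mul a3 ?_
          refine Nat.le_of_dvd hQ1pos ?_
          refine Finset.prod_dvd_prod_of_subset _ _ _ ?_
          intro p hp
          rw [mem_filter, mem_range]
          have := (hsm1 p (a2 hp)).2.2
          have : z1 ≤ C0 := min_le_left _ _
          exact ⟨by omega, (htp p hp).1⟩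
        · exact Nat.Coprime.mul_left (Nat.Coprime.prod_left fun p hp => (hTp p hp).2)
            (Nat.Coprime.prod_left fun p hp => (htp p hp).2)

end Pool.Agent.H559.PA
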