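import Pool.Agent.H559.PA.Pair
import Pool.Agent.H559.PA.Siv
import Pool.Agent.H559.HY.CutW

set_option autoImplicit false

/-! # Asymptotics along sequences of exponential growth -/

open Finset MeasureTheory ProbabilityTheory Filter Topology
open Pool.Agent.T2H32.BF (Model prob V V_pos V_anti V_ratio mertens)
open Pool.Agent.H559.HY (RS WW WW_mono)
open Pool.Agent.H559.BS (Limit log_top g g_pos)

namespace Pool.Agent.H559.PA

variable {Ω : Type*} [MeasurableSpace Ω] {P : Measure Ω} {a : ℕ → Ω → ℕ}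

theorem bcs [IsProbabilityMeasure P] (Bad : ℕ → Set Ω) (C s : ℝ) (hs : 1 < s) (hC : 0 ≤ C)
    (hev : ∀ᶠ u : ℕ in atTop, P.real (Bad u) ≤ C / (u : ℝ) ^ s) : ∀ᵐ ω ∂P, ∀ᶠ u in atTop, ω ∉ Bad u := by
  have hsum : ∑' u, P (Bad u) ≠ ⊤ := by
    obtain ⟨N, hN⟩ := eventually_atTop.1 hev
    have h1 : ∀ u, P (Bad u) ≤ ENNReal.ofReal (if u < N then 1 else C / (u : ℝ) ^ s) := by
      intro u
      rw [← ENNReal.ofReal_toReal (measure_ne_top P (Bad u))]
      refine ENNReal.ofReal_le_ofReal ?_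
      split_ifs with h2
      · exact measureReal_le_one
      · exact hN u (by omega)
    have h2 : Summable (fun u : ℕ => if u < N then (1 : ℝ) else C / (u : ℝ) ^ s) := by
      have h3 : Summable (fun u : ℕ => C / (u : ℝ) ^ s) := by
        have := (Real.summable_one_div_nat_rpow.2 hs).mul_left C
        refine this.congr fun u => by ring
      refine (summable_congr_cofinite ?_).1 h3
      rw [Filter.EventuallyEq, Nat.cofinite_eq_atTop]
      filter_upwards [eventually_ge_atTop N] with u hu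
      rw [if_neg (by omega)]
    refine ne_top_of_le_ne_top ?_ (ENNReal.tsum_le_tsum h1)
    rw [← ENNReal.ofReal_tsum_of_nonneg (fun u => by split_ifs <;> positivity) h2]
    exact ENNReal.ofReal_ne_top
  exact ae_eventually_notMem hsum

theorem seq_top (u : ℕ → ℕ) (l : ℝ) (hl : 0 < l) (hu : Tendsto (fun n : ℕ => Real.log (u n) / n) atTop (𝓝 l)) :
    Tendsto (fun n : ℕ => Real.log (u n)) atTop atTop ∧ Tendsto u atTop atTop := by
  have hvt : Tendsto (fun n : ℕ => Real.log (u n)) atTop atTop := by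
    have h4 := hu.pos_mul_atTop hl (tendsto_natCast_atTop_atTop (R := ℝ))
    refine h4.congr' ?_
    filter_upwards [eventually_ge_atTop 1] with n hn
    have hn0 : (0 : ℝ) < n := by exact_mod_cast hn
    field_simp
  refine ⟨hvt, ?_⟩
  refine tendsto_natCast_atTop_iff (R := ℝ).1 ?_
  refine tendsto_atTop_mono' atTop ?_ hvt
  filter_upwards [hvt.eventually_ge_atTop 1] with n hn
  have h5 : (0 : ℝ) < u n := by
    by_contra hcon
    push Not at hcon
    have h6 : (u n : ℝ) = 0 := le_antisymm hcon (Nat.cast_nonneg _)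
    rw [h6, Real.log_zero] at hn
    linarith
  have := Real.log_le_sub_one_of_pos h5
  linarith

/-- the sieving limit along such a sequence -/
theorem Vz_seq (z : ℕ → ℕ) (hz : Limit z) (u : ℕ → ℕ) (l : ℝ) (hl : 0 < l)
    (hu : Tendsto (fun n : ℕ => Real.log (u n) / n) atTop (𝓝 l)) :
    Tendsto (fun n : ℕ => V (z (u n)) * n) atTop (𝓝 (1 / l)) := by
  obtain ⟨h1, h2⟩ := seq_top u l hl hu
  have h3 := (hz.2.comp h2).div hu hl.ne'
  refine h3.congr' ?_
  filter_upwards [h1.eventually_ge_atTop 1, eventually_ge_atTop 1] with n a1 a2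
  have hn0 : (0 : ℝ) < n := by exact_mod_cast a2
  simp only [Pi.div_apply, Function.comp_apply]
  field_simp

/-- the cut along such a sequence -/
theorem WW_seq (c : ℝ) (hc : 0 < c) (u : ℕ → ℕ) (l : ℝ) (hl : 0 < l)
    (hu : Tendsto (fun n : ℕ => Real.log (u n) / n) atTop (𝓝 l)) :
    Tendsto (fun n : ℕ => (WW c (u n) : ℝ) / (n : ℝ) ^ c) atTop (𝓝 (l ^ c)) ∧
    Tendsto (fun n : ℕ => WW c (u n)) atTop atTop ∧
    Tendsto (fun n : ℕ => Real.log (WW c (u n)) / Real.log n) atTop (𝓝 c) ∧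
    Tendsto (fun n : ℕ => V (WW c (u n)) * Real.log n) atTop (𝓝 (g / c)) := by
  obtain ⟨h1, h2⟩ := seq_top u l hl hu
  have hLc : Tendsto (fun x : ℕ => Real.log (u x) ^ c) atTop atTop := (tendsto_rpow_atTop hc).comp h1
  have hW : Tendsto (fun n : ℕ => WW c (u n)) atTop atTop := tendsto_nat_floor_atTop.comp hLc
  have h3 : Tendsto (fun y : ℝ => ((⌊y⌋₊ : ℕ) : ℝ) / y) atTop (𝓝 1) := tendsto_nat_floor_div_atTop
  have h4 : Tendsto (fun n : ℕ => (WW c (u n) : ℝ) / (n : ℝ) ^ c) atTop (𝓝 (l ^ c)) := by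
    have h5 := (h3.comp hLc).mul ((Real.continuousAt_rpow_const l c (Or.inl hl.ne')).tendsto.comp hu)
    rw [one_mul] at h5
    refine h5.congr' ?_
    filter_upwards [h1.eventually_ge_atTop 1, eventually_ge_atTop 1] with n a1 a2
    have hn0 : (0 : ℝ) < n := by exact_mod_cast a2
    simp only [Function.comp_apply, WW]
    rw [Real.div_rpow (by linarith) hn0.le]
    have : 0 < Real.log (u n) ^ c := Real.rpow_pos_of_pos (by linarith) _
    have : 0 < (n : ℝ) ^ c := Real.rpow_pos_of_pos hn0 _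
    field_simp
  have h5 : Tendsto (fun n : ℕ => Real.log (WW c (u n)) / Real.log n) atTop (𝓝 c) := by
    have hlc : 0 < l ^ c := Real.rpow_pos_of_pos hl _
    have h6 := ((Real.continuousAt_log hlc.ne').tendsto.comp h4).div_atTop log_top
    have h7 := h6.add_const c
    rw [zero_add] at h7
    refine h7.congr' ?_
    filter_upwards [hW.eventually_ge_atTop 1, eventually_ge_atTop 1, log_top.eventually_ge_atTop 1] with n a1 a2 a3
    have hn0 : (0 : ℝ) < n := by exact_mod_cast a2
    have hw0 : (0 : ℝ) < WW c (u n) := by exact_mod_cast a1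
    simp only [Function.comp_apply]
    rw [Real.log_div hw0.ne' (Real.rpow_pos_of_pos hn0 _).ne', Real.log_rpow hn0]
    field_simp
    ring
  refine ⟨h4, hW, h5, ?_⟩
  have h6 := (mertens.comp hW).div h5 hc.ne'
  refine h6.congr' ?_
  filter_upwards [hW.eventually_ge_atTop 2, log_top.eventually_ge_atTop 1] with n a1 a2
  have hw0 : 0 < Real.log (WW c (u n)) := Real.log_pos (by exact_mod_cast a1)
  simp only [Pi.div_apply, Function.comp_apply]
  field_simp

/-- the product over the primes not dividing `q` -/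
noncomputable def Ph (q0 w : ℕ) : ℝ := ∏ p ∈ (range (w + 1)).filter (fun p => p.Prime ∧ p.Coprime q0), (1 - 1 / (p : ℝ))

theorem Ph_eq (q0 w : ℕ) (hq : 0 < q0) (hw : q0 ≤ w) : Ph q0 w = (q0 : ℝ) / q0.totient * V w := by
  have h1 : V w = Ph q0 w * ∏ p ∈ q0.primeFactors, (1 - 1 / (p : ℝ)) := by
    unfold V Ph
    rw [← prod_filter_mul_prod_filter_not ((range (w + 1)).filter Nat.Prime) (fun p => p.Coprime q0), filter_filter,
      filter_filter]
    congr 1
    refine prod_congr ?_ fun _ _ => rfl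
    ext p
    simp only [mem_filter, mem_range, Nat.mem_primeFactors]
    constructor
    · rintro ⟨_, h2, h3⟩
      refine ⟨h2, ?_, hq.ne'⟩
      by_contra h4
      exact h3 ((Nat.Prime.coprime_iff_not_dvd h2).2 h4)
    · rintro ⟨h2, h3, _⟩
      have := Nat.le_of_dvd hq h3
      exact ⟨by omega, h2, fun h4 => (Nat.Prime.coprime_iff_not_dvd h2).1 h4 h3⟩
  have h2 : (q0.totient : ℝ) = q0 * ∏ p ∈ q0.primeFactors, (1 - 1 / (p : ℝ)) := by
    have h3 := Nat.totient_eq_mul_prod_factors q0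
    have h4 : ((q0.totient : ℚ) : ℝ) = ((q0 * ∏ p ∈ q0.primeFactors, (1 - (p : ℚ)⁻¹) : ℚ) : ℝ) := by rw [h3]
    push_cast at h4
    simpa only [one_div] using h4
  have h3 : (0 : ℝ) < q0.totient := by exact_mod_cast Nat.totient_pos.2 hq
  have h4 : (0 : ℝ) < q0 := by exact_mod_cast hq
  rw [h1, div_mul_eq_mul_div, eq_div_iff h3.ne', h2]
  ring

end Pool.Agent.H559.PA
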