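import Pool.Agent.H559.PA.Asy

set_option autoImplicit false

/-! # The expected number of the random primes in a sparse set -/

open Finset MeasureTheory ProbabilityTheory Filter Topology
open Pool.Agent.T2H32.BF (Model prob V V_pos V_anti V_ratio mertens)
open Pool.Agent.H559.HY (RS WW WW_mono)
open Pool.Agent.H559.BS (Limit log_top g g_pos)
open Pool.Agent.H559.SQ (Tr pv pv_eq pv_nonneg)

namespace Pool.Agent.H559.PA

/-- the data of a sequence of sparse sets -/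
structure Dat (S : ℕ → Finset ℕ) (X : ℕ → ℝ) (N1 N2 : ℕ → ℕ) (q0 : ℕ) (l : ℝ) : Prop where
  l0 : 0 < l
  q00 : 0 < q0
  n1 : Tendsto (fun L : ℕ => Real.log (N1 L) / L) atTop (𝓝 l)
  n2 : Tendsto (fun L : ℕ => Real.log (N2 L) / L) atTop (𝓝 l)
  mem : ∀ᶠ L in atTop, ∀ v ∈ S L, N1 L ≤ v ∧ v ≤ N2 L ∧ v.Coprime q0
  big : ∀ K : ℕ, ∀ᶠ L : ℕ in atTop, (L : ℝ) ^ K ≤ X L
  dist : ∀ K A : ℕ, ∀ᶠ L : ℕ in atTop, ∀ r : ℕ → ℕ, ∑ m ∈ (Icc 1 (L ^ K)).filter (fun m => m.Coprime q0),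
    |(((S L).filter (fun v => v % m = r m % m)).card : ℝ) - X L / m| ≤ X L / (L : ℝ) ^ A

theorem brk (z W : ℕ → ℕ) (hz : Monotone z) (hW : Monotone W) (S : Finset ℕ) [DecidablePred (Tr z W)] (n1 n2 q0 : ℕ)
    (h3 : 3 ≤ n1) (hmem : ∀ v ∈ S, n1 ≤ v ∧ v ≤ n2 ∧ v.Coprime q0) (hWz : W n2 ≤ z n1) :
    (∀ v ∈ S, V (z n2) / V (W n1) ≤ pv z W v ∧ pv z W v ≤ V (z n1) / V (W n2)) ∧
    (S.filter (fun v => ∀ p ≤ W n2, p.Prime → p.Coprime q0 → ¬ p ∣ v)).card ≤ (S.filter (Tr z W)).card ∧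
    (S.filter (Tr z W)).card ≤ (S.filter (fun v => ∀ p ≤ W n1, p.Prime → p.Coprime q0 → ¬ p ∣ v)).card := by
  refine ⟨fun v hv => ?_, ?_, ?_⟩
  · obtain ⟨h1, h2, _⟩ := hmem v hv
    have h4 : W v ≤ z v := (hW h2).trans (hWz.trans (hz h1))
    rw [pv_eq z W v h4]
    have a1 := V_pos (z v)
    have a2 := V_pos (W v)
    have a3 := V_pos (W n1)
    have a4 := V_pos (W n2)
    have a5 := V_pos (z n2)
    constructor
    · exact div_le_div₀ a1.le (V_anti (hz h2)) a2 (V_anti (hW h1))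
    · exact div_le_div₀ (V_pos (z n1)).le (V_anti (hz h1)) a4 (V_anti (hW h2))
  · refine card_le_card fun v hv => ?_
    rw [mem_filter] at hv ⊢
    obtain ⟨h1, h2⟩ := hv
    obtain ⟨h4, h5, h6⟩ := hmem v h1
    refine ⟨h1, by omega, fun q _ hqW hq hd => ?_⟩
    refine h2 q (hqW.trans (hW h5)) hq ?_ hd
    exact Nat.Coprime.coprime_dvd_left hd h6
  · refine card_le_card fun v hv => ?_
    rw [mem_filter] at hv ⊢
    obtain ⟨h1, h2⟩ := hv
    obtain ⟨h4, h5, h6⟩ := hmem v h1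
    refine ⟨h1, fun q hqW hq _ hd => ?_⟩
    exact h2.2 q ((hqW.trans (hW (h4.trans h5))).trans (hWz.trans (hz h4))) (hqW.trans (hW h4)) hq hd

theorem rho_ge (q0 : ℕ) (hq : 0 < q0) : 1 ≤ (q0 : ℝ) / q0.totient := by
  have h3 : (0 : ℝ) < q0.totient := by exact_mod_cast Nat.totient_pos.2 hq
  rw [one_le_div h3]
  exact_mod_cast Nat.totient_le q0

section

variable {S : ℕ → Finset ℕ} {X : ℕ → ℝ} {N1 N2 : ℕ → ℕ} {q0 : ℕ} {l : ℝ}

/-- the cut is at most a power -/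
theorem WW_pow (c : ℝ) (hc : 1 < c) (u : ℕ → ℕ) (l : ℝ) (hl : 0 < l)
    (hu : Tendsto (fun n : ℕ => Real.log (u n) / n) atTop (𝓝 l)) :
    ∀ᶠ n : ℕ in atTop, WW c (u n) ≤ n ^ (⌈c⌉₊ + 1) := by
  obtain ⟨h1, _, _, _⟩ := WW_seq c (by linarith) u l hl hu
  have h2 : Tendsto (fun n : ℕ => (WW c (u n) : ℝ) / (n : ℝ) ^ c * (1 / (n : ℝ))) atTop (𝓝 (l ^ c * 0)) :=
    h1.mul tendsto_one_div_atTop_nhds_zero_nat
  rw [mul_zero] at h2
  filter_upwards [h2.eventually (gt_mem_nhds (show (0 : ℝ) < 1 by norm_num)), eventually_ge_atTop 1] with n a1 a2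
  have hn0 : (0 : ℝ) < n := by exact_mod_cast a2
  have hn1 : (1 : ℝ) ≤ n := by exact_mod_cast a2
  have h3 : 0 < (n : ℝ) ^ c := Real.rpow_pos_of_pos hn0 _
  have h4 : (WW c (u n) : ℝ) ≤ (n : ℝ) ^ c * n := by
    rw [div_mul_div_comm, mul_one, div_lt_one (by positivity)] at a1
    exact a1.le
  have h5 : (n : ℝ) ^ c ≤ (n : ℝ) ^ ⌈c⌉₊ := by
    rw [← Real.rpow_natCast]
    exact Real.rpow_le_rpow_of_exponent_le hn1 (Nat.le_ceil c)
  have h6 : (WW c (u n) : ℝ) ≤ (n : ℝ) ^ (⌈c⌉₊ + 1) := by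
    rw [pow_succ]
    exact h4.trans (mul_le_mul_of_nonneg_right h5 hn0.le)
  exact_mod_cast h6

theorem sieve_seq (D : Dat S X N1 N2 q0 l) (c : ℝ) (hc : 1 < c) (u : ℕ → ℕ)
    (hu : Tendsto (fun n : ℕ => Real.log (u n) / n) atTop (𝓝 l)) (ε : ℝ) (hε : 0 < ε) :
    ∀ᶠ L : ℕ in atTop, |(((S L).filter (fun v => ∀ p ≤ WW c (u L), p.Prime → p.Coprime q0 → ¬ p ∣ v)).card : ℝ) -
      X L * Ph q0 (WW c (u L))| ≤ ε * (X L * Ph q0 (WW c (u L))) := by
  have hc0 : 0 < c := by linarith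
  obtain ⟨B, hB⟩ := gsieve (ε / 2) (by positivity)
  set K0 := ⌈c⌉₊ + 1 with hK0
  obtain ⟨_, h2, _, h4⟩ := WW_seq c hc0 u l D.l0 hu
  have hg := g_pos
  have hgc : 0 < g / c / 2 := by positivity
  have hlim : Tendsto (fun L : ℕ => Real.log L / (L : ℝ)) atTop (𝓝 0) :=
    (Real.isLittleO_log_id_atTop.tendsto_div_nhds_zero).comp (tendsto_natCast_atTop_atTop (R := ℝ))
  filter_upwards [WW_pow c hc u l D.l0 hu, D.dist (K0 * B + 1) (K0 + 2), eventually_ge_atTop (B + 1), D.big 4,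
    h2.eventually_ge_atTop (q0 + 1), h4.eventually (lt_mem_nhds (show g / c / 2 < g / c by linarith [hgc])),
    hlim.eventually (gt_mem_nhds (show (0 : ℝ) < ε * (g / c / 2) / 6 by positivity)),
    log_top.eventually_ge_atTop 1] with L b1 b2 b3 b4 b5 b6 b7 b8
  set w := WW c (u L) with hw
  have hL1 : 1 ≤ L := by omega
  have hL0 : (0 : ℝ) < L := by exact_mod_cast hL1
  have hX0 : 0 ≤ X L := le_trans (by positivity) b4
  have hE : ∑ m ∈ (Icc 1 (B * w ^ B)).filter (fun m => m.Coprime q0), er (S L) (X L) m ≤ X L / (L : ℝ) ^ (K0 + 2) := by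
    refine le_trans ?_ (b2 (fun _ => 0))
    have e1 : ∀ m, er (S L) (X L) m = |(((S L).filter (fun v => v % m = 0 % m)).card : ℝ) - X L / m| := by
      intro m
      unfold er
      congr 4
      ext v
      simp only [mem_filter, Nat.zero_mod, Nat.dvd_iff_mod_eq_zero]
    rw [sum_congr rfl fun m _ => e1 m]
    refine sum_le_sum_of_subset_of_nonneg ?_ fun _ _ _ => abs_nonneg _
    refine filter_subset_filter _ (Icc_subset_Icc le_rfl ?_)
    calc B * w ^ B ≤ L * (L ^ K0) ^ B := Nat.mul_le_mul (by omega) (Nat.pow_le_pow_left b1 B)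
      _ = L ^ (K0 * B + 1) := by ring
  have h5 := hB q0 w (S L) (X L) _ (by omega) hX0 hE
  refine h5.trans ?_
  have hPh := Ph_eq q0 w D.q00 (by omega)
  have hρ := rho_ge q0 D.q00
  have hV := V_pos w
  have hPV : V w ≤ Ph q0 w := by
    rw [hPh]
    nlinarith
  have h6 : 3 * (w : ℝ) * (X L / (L : ℝ) ^ (K0 + 2)) ≤ ε / 2 * (X L * Ph q0 w) := by
    have h7 : (w : ℝ) ≤ (L : ℝ) ^ K0 := by exact_mod_cast b1
    calc 3 * (w : ℝ) * (X L / (L : ℝ) ^ (K0 + 2)) ≤ 3 * (L : ℝ) ^ K0 * (X L / (L : ℝ) ^ (K0 + 2)) := by gcongr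
      _ = X L * (3 / (L : ℝ) ^ 2) := by
          field_simp
          ring
      _ ≤ X L * (ε / 2 * V w) := by
          refine mul_le_mul_of_nonneg_left ?_ hX0
          have h8 : g / c / 2 / Real.log L ≤ V w := by
            rw [div_le_iff₀ (by linarith)]
            exact b6.le
          have h9 : 3 / (L : ℝ) ^ 2 ≤ ε / 2 * (g / c / 2 / Real.log L) := by
            rw [div_lt_iff₀ hL0] at b7
            rw [div_le_iff₀ (by positivity)]
            have h10 : ε / 2 * (g / c / 2 / Real.log L) * (L : ℝ) ^ 2 = 3 * (ε * (g / c / 2) / 6 * L) * L / Real.log L := by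
              field_simp
              ring
            rw [h10, le_div_iff₀ (by linarith)]
            have h11 : (1 : ℝ) ≤ L := by exact_mod_cast hL1
            nlinarith
          refine h9.trans (mul_le_mul_of_nonneg_left h8 (by positivity))
      _ ≤ ε / 2 * (X L * Ph q0 w) := by
          have := mul_le_mul_of_nonneg_left hPV hX0
          nlinarith
  have h7 : ∏ p ∈ (range (w + 1)).filter (fun p => p.Prime ∧ p.Coprime q0), (1 - 1 / (p : ℝ)) = Ph q0 w := rfl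
  rw [h7]
  linarith

/-- the eventual facts -/
structure Fct (S : Finset ℕ) (X : ℝ) (n1 n2 q0 w1 w2 zn1 L : ℕ) (ε : ℝ) : Prop where
  h3 : 3 ≤ n1
  mem : ∀ v ∈ S, n1 ≤ v ∧ v ≤ n2 ∧ v.Coprime q0
  wz : w2 ≤ zn1
  X0 : (L : ℝ) ^ 4 ≤ X
  q1 : q0 ≤ w1
  q2 : q0 ≤ w2
  s1 : |((S.filter (fun v => ∀ p ≤ w1, p.Prime → p.Coprime q0 → ¬ p ∣ v)).card : ℝ) - X * Ph q0 w1| ≤ ε * (X * Ph q0 w1)
  s2 : |((S.filter (fun v => ∀ p ≤ w2, p.Prime → p.Coprime q0 → ¬ p ∣ v)).card : ℝ) - X * Ph q0 w2| ≤ ε * (X * Ph q0 w2)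

theorem fct_ev (D : Dat S X N1 N2 q0 l) (z : ℕ → ℕ) (hz : Limit z) (c : ℝ) (hc : 1 < c) (ε : ℝ) (hε : 0 < ε) :
    ∀ᶠ L : ℕ in atTop, Fct (S L) (X L) (N1 L) (N2 L) q0 (WW c (N1 L)) (WW c (N2 L)) (z (N1 L)) L ε := by
  have hc0 : 0 < c := by linarith
  have hg := g_pos
  obtain ⟨_, t1⟩ := seq_top N1 l D.l0 D.n1
  obtain ⟨_, a2, _, _⟩ := WW_seq c hc0 N1 l D.l0 D.n1
  obtain ⟨_, b2, _, b4⟩ := WW_seq c hc0 N2 l D.l0 D.n2
  have hVz := Vz_seq z hz N1 l D.l0 D.n1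
  have hl := D.l0
  have hgc : 0 < g / c := by positivity
  have hlim : Tendsto (fun L : ℕ => Real.log L / (L : ℝ)) atTop (𝓝 0) :=
    (Real.isLittleO_log_id_atTop.tendsto_div_nhds_zero).comp (tendsto_natCast_atTop_atTop (R := ℝ))
  have h1 : Tendsto (fun L : ℕ => (V (z (N1 L)) * L) * (Real.log L / L) / (V (WW c (N2 L)) * Real.log L)) atTop (𝓝 0) := by
    have h2 := (hVz.mul hlim).div b4 hgc.ne'
    rw [mul_zero, zero_div] at h2
    exact h2
  filter_upwards [t1.eventually_ge_atTop 3, D.mem, h1.eventually (gt_mem_nhds (show (0 : ℝ) < 1 by norm_num)), D.big 4,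
    a2.eventually_ge_atTop q0, b2.eventually_ge_atTop q0, sieve_seq D c hc N1 D.n1 ε hε, sieve_seq D c hc N2 D.n2 ε hε,
    log_top.eventually_ge_atTop 1, eventually_ge_atTop 1] with L c1 c2 c3 c4 c5 c6 c7 c8 c9 c10
  refine ⟨c1, c2, ?_, c4, c5, c6, c7, c8⟩
  by_contra hcon
  push Not at hcon
  have h8 := V_anti hcon.le
  have hn0 : (0 : ℝ) < L := by exact_mod_cast c10
  have hV1 := V_pos (WW c (N2 L))
  have h9 : (V (z (N1 L)) * L) * (Real.log L / L) / (V (WW c (N2 L)) * Real.log L) = V (z (N1 L)) / V (WW c (N2 L)) := by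
    field_simp
  rw [h9, div_lt_one hV1] at c3
  linarith

open Classical in
/-- the expected number -/
noncomputable def EN (z W : ℕ → ℕ) (S : Finset ℕ) : ℝ := ∑ v ∈ S.filter (Tr z W), pv z W v

open Classical in
theorem EN_brk (z W : ℕ → ℕ) (hz : Monotone z) (hW : Monotone W) (S : Finset ℕ) (X : ℝ) (n1 n2 q0 L : ℕ) (ε : ℝ)
    (hq : 0 < q0) (F : Fct S X n1 n2 q0 (W n1) (W n2) (z n1) L ε) :
    V (z n2) / V (W n1) * (S.filter (Tr z W)).card ≤ EN z W S ∧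
    EN z W S ≤ V (z n1) / V (W n2) * (S.filter (Tr z W)).card ∧
    (1 - ε) * (X * ((q0 : ℝ) / q0.totient * V (W n2))) ≤ (S.filter (Tr z W)).card ∧
    ((S.filter (Tr z W)).card : ℝ) ≤ (1 + ε) * (X * ((q0 : ℝ) / q0.totient * V (W n1))) := by
  obtain ⟨h1, h2, h3⟩ := brk z W hz hW S n1 n2 q0 F.h3 F.mem F.wz
  refine ⟨?_, ?_, ?_, ?_⟩
  · unfold EN
    rw [mul_comm, ← nsmul_eq_mul]
    exact card_nsmul_le_sum _ _ _ fun v hv => (h1 v (mem_filter.1 hv).1).1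
  · unfold EN
    rw [mul_comm, ← nsmul_eq_mul]
    exact sum_le_card_nsmul _ _ _ fun v hv => (h1 v (mem_filter.1 hv).1).2
  · rw [← Ph_eq q0 (W n2) hq F.q2]
    have h4 := (abs_le.1 F.s2).1
    have h5 : ((S.filter (fun v => ∀ p ≤ W n2, p.Prime → p.Coprime q0 → ¬ p ∣ v)).card : ℝ) ≤ (S.filter (Tr z W)).card := by
      exact_mod_cast h2
    linarith
  · rw [← Ph_eq q0 (W n1) hq F.q1]
    have h4 := (abs_le.1 F.s1).2
    have h5 : ((S.filter (Tr z W)).card : ℝ) ≤ (S.filter (fun v => ∀ p ≤ W n1, p.Prime → p.Coprime q0 → ¬ p ∣ v)).card := by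
      exact_mod_cast h3
    linarith

theorem EN_lim (D : Dat S X N1 N2 q0 l) (z : ℕ → ℕ) (hz : Limit z) (c : ℝ) (hc : 1 < c) :
    Tendsto (fun L : ℕ => EN z (WW c) (S L) * L / X L) atTop (𝓝 ((q0 : ℝ) / q0.totient / l)) := by
  classical
  have hc0 : 0 < c := by linarith
  have hg := g_pos
  have hl := D.l0
  have hρ := rho_ge q0 D.q00
  set ρ := (q0 : ℝ) / q0.totient with hρd
  obtain ⟨_, _, _, a4⟩ := WW_seq c hc0 N1 l D.l0 D.n1
  obtain ⟨_, _, _, b4⟩ := WW_seq c hc0 N2 l D.l0 D.n2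
  have hz1 := Vz_seq z hz N1 l D.l0 D.n1
  have hz2 := Vz_seq z hz N2 l D.l0 D.n2
  have hgc : 0 < g / c := by positivity
  have hlow : Tendsto (fun L : ℕ => (V (z (N2 L)) * L) * ((V (WW c (N2 L)) * Real.log L) / (V (WW c (N1 L)) * Real.log L)) * ρ)
      atTop (𝓝 (ρ / l)) := by
    have h1 := (hz2.mul (b4.div a4 hgc.ne')).mul_const ρ
    rw [div_self hgc.ne', mul_one] at h1
    have : 1 / l * ρ = ρ / l := by ring
    rw [this] at h1
    exact h1
  have hup : Tendsto (fun L : ℕ => (V (z (N1 L)) * L) * ((V (WW c (N1 L)) * Real.log L) / (V (WW c (N2 L)) * Real.log L)) * ρ)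
      atTop (𝓝 (ρ / l)) := by
    have h1 := (hz1.mul (a4.div b4 hgc.ne')).mul_const ρ
    rw [div_self hgc.ne', mul_one] at h1
    have : 1 / l * ρ = ρ / l := by ring
    rw [this] at h1
    exact h1
  have hκ : 0 < ρ / l := by positivity
  rw [Metric.tendsto_atTop]
  intro δ hδ
  -- choose the parameter
  obtain ⟨ε, hε, hε1, hε2⟩ : ∃ ε : ℝ, 0 < ε ∧ ε < 1 ∧ ε * (ρ / l + 2) < δ / 2 := by
    refine ⟨min (1 / 2) (δ / (4 * (ρ / l + 2))), by positivity, ?_, ?_⟩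
    · exact (min_le_left _ _).trans_lt (by norm_num)
    · calc min (1 / 2) (δ / (4 * (ρ / l + 2))) * (ρ / l + 2) ≤ δ / (4 * (ρ / l + 2)) * (ρ / l + 2) := by
            gcongr
            exact min_le_right _ _
        _ = δ / 4 := by field_simp
        _ < δ / 2 := by linarith
  have hδ2 : 0 < min (δ / 4) 1 := by positivity
  obtain ⟨L0, hL0⟩ := eventually_atTop.1 ((fct_ev D z hz c hc ε hε).and (((Metric.tendsto_nhds.1 hlow) _ hδ2).and
    (((Metric.tendsto_nhds.1 hup) _ hδ2).and ((eventually_ge_atTop 1).and (log_top.eventually_ge_atTop 1)))))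
  refine ⟨L0, fun L hL => ?_⟩
  obtain ⟨F, c1, c2, c3, c4⟩ := hL0 L hL
  obtain ⟨e1, e2, e3, e4⟩ := EN_brk z (WW c) hz.1 (WW_mono c hc0.le) (S L) (X L) (N1 L) (N2 L) q0 L ε D.q00 F
  rw [Real.dist_eq, abs_lt] at c1 c2
  have hLp : (0 : ℝ) < L := by exact_mod_cast c3
  have hX0 : 0 < X L := lt_of_lt_of_le (by positivity) F.X0
  have v1 := V_pos (WW c (N1 L))
  have v2 := V_pos (WW c (N2 L))
  have v3 := V_pos (z (N1 L))
  have v4 := V_pos (z (N2 L))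
  have hlog : 0 < Real.log L := by linarith
  set A := (((S L).filter (Tr z (WW c))).card : ℝ) with hA
  have g1 : (1 - ε) * ((V (z (N2 L)) * L) * ((V (WW c (N2 L)) * Real.log L) / (V (WW c (N1 L)) * Real.log L)) * ρ) ≤
      EN z (WW c) (S L) * L / X L := by
    rw [le_div_iff₀ hX0]
    calc (1 - ε) * ((V (z (N2 L)) * L) * ((V (WW c (N2 L)) * Real.log L) / (V (WW c (N1 L)) * Real.log L)) * ρ) * X L =
        V (z (N2 L)) / V (WW c (N1 L)) * ((1 - ε) * (X L * (ρ * V (WW c (N2 L))))) * L := by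
          field_simp
      _ ≤ V (z (N2 L)) / V (WW c (N1 L)) * A * L := by gcongr
      _ ≤ _ := by gcongr
  have g2 : EN z (WW c) (S L) * L / X L ≤
      (1 + ε) * ((V (z (N1 L)) * L) * ((V (WW c (N1 L)) * Real.log L) / (V (WW c (N2 L)) * Real.log L)) * ρ) := by
    rw [div_le_iff₀ hX0]
    calc EN z (WW c) (S L) * L ≤ V (z (N1 L)) / V (WW c (N2 L)) * A * L := by gcongr
      _ ≤ V (z (N1 L)) / V (WW c (N2 L)) * ((1 + ε) * (X L * (ρ * V (WW c (N1 L))))) * L := by gcongr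
      _ = _ := by field_simp
  have hm1 : min (δ / 4) 1 ≤ δ / 4 := min_le_left _ _
  have hm2 : min (δ / 4) 1 ≤ 1 := min_le_right _ _
  rw [Real.dist_eq, abs_lt]
  set lo := (V (z (N2 L)) * L) * ((V (WW c (N2 L)) * Real.log L) / (V (WW c (N1 L)) * Real.log L)) * ρ with hlo
  set hi := (V (z (N1 L)) * L) * ((V (WW c (N1 L)) * Real.log L) / (V (WW c (N2 L)) * Real.log L)) * ρ with hhi
  constructor <;> nlinarith

end

end Pool.Agent.H559.PA
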