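import Pool.Agent.H559.PA.Gen

set_option autoImplicit false

/-! # The random primes in a sequence of sparse sets -/

open Finset MeasureTheory ProbabilityTheory Filter Topology
open Pool.Agent.T2H32.BF (Model prob V V_pos V_anti V_ratio mertens)
open Pool.Agent.H559.HY (RS WW WW_mono)
open Pool.Agent.H559.BS (Limit log_top g g_pos)
open Pool.Agent.H559.SQ (Tr pv pv_eq pv_nonneg)

namespace Pool.Agent.H559.PA

variable {Ω : Type*} [MeasurableSpace Ω] {P : Measure Ω} {a : ℕ → Ω → ℕ}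
variable {S : ℕ → Finset ℕ} {X : ℕ → ℝ} {N1 N2 : ℕ → ℕ} {q0 : ℕ} {l : ℝ}

theorem log_rpow_lim (d : ℝ) (hd : 0 < d) : Tendsto (fun L : ℕ => Real.log L / (L : ℝ) ^ d) atTop (𝓝 0) :=
  ((isLittleO_log_rpow_atTop hd).tendsto_div_nhds_zero).comp (tendsto_natCast_atTop_atTop (R := ℝ))

/-- the error terms -/
theorem err_lim (D : Dat S X N1 N2 q0 l) (z : ℕ → ℕ) (hz : Limit z) (c s : ℝ) (hc : 1 < c) (_hs1 : 1 < s) (hs2 : s ≤ 2)
    (hsc : s < c) (K : ℕ) (hK : 4 ≤ K) :
    Tendsto (fun L : ℕ => (1 / EN z (WW c) (S L) + 64 / (V (WW c (N2 L)) * WW c (N1 L)) +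
      16 * (Real.log (N2 L) / (((L ^ K : ℕ) : ℝ) * Real.log ((L ^ K : ℕ) : ℝ)))) * (L : ℝ) ^ s) atTop (𝓝 0) := by
  have hc0 : 0 < c := by linarith
  have hg := g_pos
  have hl := D.l0
  have hρ := rho_ge q0 D.q00
  have hgc : 0 < g / c := by positivity
  have hlc : 0 < l ^ c := Real.rpow_pos_of_pos hl _
  obtain ⟨a1, a2, _, _⟩ := WW_seq c hc0 N1 l D.l0 D.n1
  obtain ⟨_, _, _, b4⟩ := WW_seq c hc0 N2 l D.l0 D.n2
  have hEN := EN_lim D z hz c hc
  have hκ : 0 < (q0 : ℝ) / q0.totient / l := by positivity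
  have hone : Tendsto (fun L : ℕ => 1 / (L : ℝ)) atTop (𝓝 0) := tendsto_one_div_atTop_nhds_zero_nat
  -- the first
  have h1 : Tendsto (fun L : ℕ => 1 / EN z (WW c) (S L) * (L : ℝ) ^ s) atTop (𝓝 0) := by
    have h2 : Tendsto (fun L : ℕ => (L : ℝ) * (L : ℝ) ^ s / X L) atTop (𝓝 0) := by
      refine tendsto_of_tendsto_of_tendsto_of_le_of_le' tendsto_const_nhds hone ?_ ?_
      · filter_upwards [D.big 4] with L hL
        have : 0 ≤ X L := le_trans (by positivity) hL
        positivity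
      · filter_upwards [D.big 4, eventually_ge_atTop 1] with L hL hL1
        have hL0 : (0 : ℝ) < L := by exact_mod_cast hL1
        have hL2 : (1 : ℝ) ≤ L := by exact_mod_cast hL1
        have h3 : (L : ℝ) ^ s ≤ (L : ℝ) ^ 2 := by
          rw [← Real.rpow_natCast]
          exact Real.rpow_le_rpow_of_exponent_le hL2 (by push_cast; exact hs2)
        have hX : 0 < X L := lt_of_lt_of_le (by positivity) hL
        rw [div_le_div_iff₀ hX hL0]
        calc (L : ℝ) * (L : ℝ) ^ s * L ≤ (L : ℝ) * (L : ℝ) ^ 2 * L := by gcongr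
          _ = (L : ℝ) ^ 4 := by ring
          _ ≤ 1 * X L := by linarith
    have h3 := (hEN.inv₀ hκ.ne').mul h2
    rw [mul_zero] at h3
    refine h3.congr' ?_
    filter_upwards [D.big 4, eventually_ge_atTop 1, hEN.eventually (lt_mem_nhds hκ)] with L hL hL1 hL3
    have hL0 : (0 : ℝ) < L := by exact_mod_cast hL1
    have hX : 0 < X L := lt_of_lt_of_le (by positivity) hL
    have hE : EN z (WW c) (S L) ≠ 0 := by
      intro h4
      rw [h4] at hL3
      simp at hL3
    field_simp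
  -- the second
  have h2 : Tendsto (fun L : ℕ => 64 / (V (WW c (N2 L)) * WW c (N1 L)) * (L : ℝ) ^ s) atTop (𝓝 0) := by
    have h3 := (((b4.mul a1).inv₀ (mul_pos hgc hlc).ne').mul (log_rpow_lim (c - s) (by linarith))).const_mul 64
    rw [mul_zero, mul_zero] at h3
    refine h3.congr' ?_
    filter_upwards [a2.eventually_ge_atTop 1, eventually_ge_atTop 1, log_top.eventually_ge_atTop 1] with L c1 c2 c3
    have hL0 : (0 : ℝ) < L := by exact_mod_cast c2
    have hW0 : (0 : ℝ) < WW c (N1 L) := by exact_mod_cast c1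
    have hV := V_pos (WW c (N2 L))
    have e1 : (L : ℝ) ^ (c - s) = (L : ℝ) ^ c / (L : ℝ) ^ s := Real.rpow_sub hL0 c s
    have e2 : 0 < (L : ℝ) ^ c := Real.rpow_pos_of_pos hL0 _
    have e3 : 0 < (L : ℝ) ^ s := Real.rpow_pos_of_pos hL0 _
    have e4 : 0 < Real.log L := by linarith
    rw [e1]
    field_simp
  -- the third
  have h3 : Tendsto (fun L : ℕ => 16 * (Real.log (N2 L) / (((L ^ K : ℕ) : ℝ) * Real.log ((L ^ K : ℕ) : ℝ))) * (L : ℝ) ^ s)
      atTop (𝓝 0) := by
    have h4 : Tendsto (fun L : ℕ => (L : ℝ) * (L : ℝ) ^ s / (((L ^ K : ℕ) : ℝ) * Real.log ((L ^ K : ℕ) : ℝ))) atTop (𝓝 0) := by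
      refine tendsto_of_tendsto_of_tendsto_of_le_of_le' tendsto_const_nhds hone ?_ ?_
      · filter_upwards with L
        have := Real.log_natCast_nonneg (L ^ K)
        positivity
      · filter_upwards [eventually_ge_atTop 1, log_top.eventually_ge_atTop 1] with L hL1 hl1
        have hL0 : (0 : ℝ) < L := by exact_mod_cast hL1
        have hL2 : (1 : ℝ) ≤ L := by exact_mod_cast hL1
        have h5 : (L : ℝ) ^ s ≤ (L : ℝ) ^ 2 := by
          rw [← Real.rpow_natCast]
          exact Real.rpow_le_rpow_of_exponent_le hL2 (by push_cast; exact hs2)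
        have h6 : 1 ≤ Real.log ((L ^ K : ℕ) : ℝ) := by
          rw [Nat.cast_pow, Real.log_pow]
          have : (4 : ℝ) ≤ K := by exact_mod_cast hK
          nlinarith
        have h7 : (L : ℝ) ^ 4 ≤ ((L ^ K : ℕ) : ℝ) := by
          rw [Nat.cast_pow]
          exact pow_le_pow_right₀ hL2 hK
        have h8 : (L : ℝ) ^ 4 ≤ ((L ^ K : ℕ) : ℝ) * Real.log ((L ^ K : ℕ) : ℝ) := by
          have : (0 : ℝ) ≤ ((L ^ K : ℕ) : ℝ) := Nat.cast_nonneg _
          nlinarith
        rw [div_le_div_iff₀ (lt_of_lt_of_le (by positivity) h8) hL0]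
        calc (L : ℝ) * (L : ℝ) ^ s * L ≤ (L : ℝ) * (L : ℝ) ^ 2 * L := by gcongr
          _ = (L : ℝ) ^ 4 := by ring
          _ ≤ 1 * (((L ^ K : ℕ) : ℝ) * Real.log ((L ^ K : ℕ) : ℝ)) := by linarith
    have h5 := (D.n2.mul h4).const_mul 16
    rw [mul_zero, mul_zero] at h5
    refine h5.congr' ?_
    filter_upwards [eventually_ge_atTop 1] with L hL1
    have hL0 : (0 : ℝ) < L := by exact_mod_cast hL1
    field_simp
  have h4 := (h1.add h2).add h3
  rw [add_zero, add_zero] at h4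
  refine h4.congr fun L => ?_
  ring

open Classical in
/-- the bound for the probability of a deviation -/
theorem dev_ev (D : Dat S X N1 N2 q0 l) (h : Model P a) (z : ℕ → ℕ) (hz : Limit z) (c s : ℝ) (hc : 1 < c) (hs1 : 1 < s)
    (hs2 : s ≤ 2) (hsc : s < c) (θ : ℝ) (hθ : 0 < θ) :
    ∀ᶠ L : ℕ in atTop, P.real {ω | θ * EN z (WW c) (S L) ≤
      |(((S L).filter (fun v => v ∈ RS z (WW c) (fun q => a q ω))).card : ℝ) - EN z (WW c) (S L)|} ≤
        1 / θ ^ 2 / (L : ℝ) ^ s := by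
  have hc0 : 0 < c := by linarith
  have hg := g_pos
  have hl := D.l0
  have hρ := rho_ge q0 D.q00
  have hgc : 0 < g / c := by positivity
  have hlc : 0 < l ^ c := Real.rpow_pos_of_pos hl _
  set K := ⌈c⌉₊ + 5 with hKd
  obtain ⟨a1, a2, _, a4⟩ := WW_seq c hc0 N1 l D.l0 D.n1
  obtain ⟨_, _, _, b4⟩ := WW_seq c hc0 N2 l D.l0 D.n2
  have hz1 := Vz_seq z hz N1 l D.l0 D.n1
  have hz2 := Vz_seq z hz N2 l D.l0 D.n2
  have hEN := EN_lim D z hz c hc
  have hκ : 0 < (q0 : ℝ) / q0.totient / l := by positivity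
  -- the ratio of the probabilities
  have hr : Tendsto (fun L : ℕ => (V (z (N1 L)) * L) / (V (z (N2 L)) * L) *
      ((V (WW c (N1 L)) * Real.log L) / (V (WW c (N2 L)) * Real.log L))) atTop (𝓝 1) := by
    have h1 := (hz1.div hz2 (by positivity)).mul (a4.div b4 hgc.ne')
    rw [div_self hgc.ne', div_self (by positivity), mul_one] at h1
    exact h1
  -- the smallness
  have hsm : Tendsto (fun L : ℕ => Real.log (N2 L) / ((WW c (N1 L) : ℝ) * Real.log (WW c (N1 L))) +
      Real.log (N2 L) / (((L ^ K : ℕ) : ℝ) * Real.log ((L ^ K : ℕ) : ℝ))) atTop (𝓝 0) := by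
    have h1 : Tendsto (fun L : ℕ => Real.log (N2 L) / ((WW c (N1 L) : ℝ) * Real.log (WW c (N1 L)))) atTop (𝓝 0) := by
      have h2 : Tendsto (fun L : ℕ => (L : ℝ) ^ (-(c - 1))) atTop (𝓝 0) :=
        (tendsto_rpow_neg_atTop (show 0 < c - 1 by linarith)).comp (tendsto_natCast_atTop_atTop (R := ℝ))
      have h3 := ((D.n2.mul (a1.inv₀ hlc.ne')).mul h2).mul
        (((Real.tendsto_log_atTop.comp (tendsto_natCast_atTop_atTop (R := ℝ))).comp a2).inv_tendsto_atTop)
      simp only [mul_zero] at h3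
      refine h3.congr' ?_
      filter_upwards [a2.eventually_ge_atTop 2, eventually_ge_atTop 1] with L c1 c2
      have hL0 : (0 : ℝ) < L := by exact_mod_cast c2
      have hW0 : (0 : ℝ) < WW c (N1 L) := by exact_mod_cast (by omega : 0 < WW c (N1 L))
      have hW1 : 0 < Real.log (WW c (N1 L)) := Real.log_pos (by exact_mod_cast (by omega : 1 < WW c (N1 L)))
      have e1 : (L : ℝ) ^ (-(c - 1)) = L / (L : ℝ) ^ c := by
        rw [neg_sub, Real.rpow_sub hL0, Real.rpow_one]
      have e2 : 0 < (L : ℝ) ^ c := Real.rpow_pos_of_pos hL0 _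
      simp only [Function.comp_apply, Pi.inv_apply]
      rw [e1]
      field_simp
    have h2 : Tendsto (fun L : ℕ => Real.log (N2 L) / (((L ^ K : ℕ) : ℝ) * Real.log ((L ^ K : ℕ) : ℝ))) atTop (𝓝 0) := by
      have h3 : Tendsto (fun L : ℕ => (L : ℝ) / (((L ^ K : ℕ) : ℝ) * Real.log ((L ^ K : ℕ) : ℝ))) atTop (𝓝 0) := by
        refine tendsto_of_tendsto_of_tendsto_of_le_of_le' tendsto_const_nhds
          (tendsto_one_div_atTop_nhds_zero_nat (𝕜 := ℝ)) ?_ ?_
        · filter_upwards with L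
          have := Real.log_natCast_nonneg (L ^ K)
          positivity
        · filter_upwards [eventually_ge_atTop 1, log_top.eventually_ge_atTop 1] with L hL1 hl1
          have hL0 : (0 : ℝ) < L := by exact_mod_cast hL1
          have hL2 : (1 : ℝ) ≤ L := by exact_mod_cast hL1
          have h6 : 1 ≤ Real.log ((L ^ K : ℕ) : ℝ) := by
            rw [Nat.cast_pow, Real.log_pow]
            have : (1 : ℝ) ≤ K := by
              have : 1 ≤ K := by omega
              exact_mod_cast this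
            nlinarith
          have h7 : (L : ℝ) ^ 2 ≤ ((L ^ K : ℕ) : ℝ) := by
            rw [Nat.cast_pow]
            exact pow_le_pow_right₀ hL2 (by omega)
          have h8 : (L : ℝ) ^ 2 ≤ ((L ^ K : ℕ) : ℝ) * Real.log ((L ^ K : ℕ) : ℝ) := by
            have : (0 : ℝ) ≤ ((L ^ K : ℕ) : ℝ) := Nat.cast_nonneg _
            nlinarith
          rw [div_le_div_iff₀ (lt_of_lt_of_le (by positivity) h8) hL0]
          nlinarith
      have h5 := D.n2.mul h3
      rw [mul_zero] at h5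
      refine h5.congr' ?_
      filter_upwards [eventually_ge_atTop 1] with L hL1
      have hL0 : (0 : ℝ) < L := by exact_mod_cast hL1
      field_simp
    have h3 := h1.add h2
    rwa [add_zero] at h3
  filter_upwards [fct_ev D z hz c hc (1 / 2) (by norm_num), hEN.eventually (lt_mem_nhds hκ),
    hr.eventually (gt_mem_nhds (show (1 : ℝ) < 2 by norm_num)), hsm.eventually (gt_mem_nhds (show (0 : ℝ) < 1 / 4 by norm_num)),
    (err_lim D z hz c s hc hs1 hs2 hsc K (by omega)).eventually (gt_mem_nhds (show (0 : ℝ) < 1 by norm_num)),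
    WW_pow c hc N1 l hl D.n1, D.dist K K, a2.eventually_ge_atTop 2, eventually_ge_atTop 1,
    log_top.eventually_ge_atTop 1] with L F c2 c3 c4 c5 c6 c7 c8 c9 c10
  obtain ⟨e1, e2, e3, e4⟩ := EN_brk z (WW c) hz.1 (WW_mono c hc0.le) (S L) (X L) (N1 L) (N2 L) q0 L (1 / 2) D.q00 F
  obtain ⟨f1, _, _⟩ := brk z (WW c) hz.1 (WW_mono c hc0.le) (S L) (N1 L) (N2 L) q0 F.h3 F.mem F.wz
  have hLp : (0 : ℝ) < L := by exact_mod_cast c9
  have hX0 : 0 < X L := lt_of_lt_of_le (by positivity) F.X0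
  have hE0 : 0 < EN z (WW c) (S L) := by
    by_contra hcon
    push Not at hcon
    have : EN z (WW c) (S L) * L / X L ≤ 0 := div_nonpos_of_nonpos_of_nonneg (by nlinarith) hX0.le
    linarith
  set w1 := WW c (N1 L) with hw1
  set w2 := WW c (N2 L) with hw2
  set p1 := V (z (N1 L)) / V w2 with hp1
  set A := (((S L).filter (Tr z (WW c))).card : ℝ) with hA
  set E := EN z (WW c) (S L) with hE
  set κ := Real.log (N2 L) / (((L ^ K : ℕ) : ℝ) * Real.log ((L ^ K : ℕ) : ℝ)) with hκd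
  have v1 := V_pos w1
  have v2 := V_pos w2
  have v3 := V_pos (z (N1 L))
  have v4 := V_pos (z (N2 L))
  have hw1p : (0 : ℝ) < w1 := by exact_mod_cast (by omega : 0 < w1)
  have hκ0 : 0 ≤ κ := by
    have h2 := Real.log_natCast_nonneg (N2 L)
    have h3 := Real.log_natCast_nonneg (L ^ K)
    positivity
  have hvar := var_le h z (WW c) (S L) w1 (L ^ K) (N2 L) (X L) p1 c8 (c6.trans (Nat.pow_le_pow_right c9 (by omega))) hX0.le
    (fun v hv => ⟨(F.mem v hv).2.1, WW_mono c hc0.le (F.mem v hv).1, (f1 v hv).2⟩) (by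
      intro q hq u
      rw [mem_filter, mem_Ioc] at hq
      have hqc : q.Coprime q0 := by
        rw [Nat.Prime.coprime_iff_not_dvd hq.2]
        intro hd
        have := Nat.le_of_dvd D.q00 hd
        have := F.q1
        omega
      have h1 := (single_le_sum (f := fun m => |(((S L).filter (fun v => v % m = u % m)).card : ℝ) - X L / m|)
        (fun _ _ => abs_nonneg _) (show q ∈ (Icc 1 (L ^ K)).filter (fun m => m.Coprime q0) by
          rw [mem_filter, mem_Icc]
          exact ⟨⟨hq.2.one_lt.le, hq.1.2⟩, hqc⟩)).trans (c7 (fun _ => u))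
      have h2 := (abs_le.1 h1).2
      have hq0 : (0 : ℝ) < q := by exact_mod_cast hq.2.pos
      have h3 : X L / (L : ℝ) ^ K ≤ X L / q := by
        refine div_le_div_of_nonneg_left hX0.le hq0 ?_
        exact_mod_cast hq.1.2
      have h4 : 2 * X L / (q : ℝ) = X L / q + X L / q := by ring
      rw [h4]
      linarith) c4.le (θ * E) (by positivity)
  have hsumE : ∑ v ∈ (S L).filter (Tr z (WW c)), pv z (WW c) v = E := rfl
  rw [hsumE] at hvar
  refine hvar.trans ?_
  -- the comparison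
  have hp10 : 0 < p1 := by positivity
  have hr2 : p1 ≤ 2 * (V (z (N2 L)) / V w1) := by
    have e5 : (V (z (N1 L)) * L) / (V (z (N2 L)) * L) * ((V w1 * Real.log L) / (V w2 * Real.log L)) =
        p1 / (V (z (N2 L)) / V w1) := by
      have : 0 < Real.log L := by linarith
      rw [hp1]
      field_simp
    rw [e5, div_lt_iff₀ (by positivity)] at c3
    exact c3.le
  have hA0 : 0 ≤ A := Nat.cast_nonneg _
  have g1 : p1 * A ≤ 2 * E := by
    have := mul_le_mul_of_nonneg_right hr2 hA0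
    linarith
  have g2 : p1 * X L ≤ 4 * E / V w2 := by
    rw [le_div_iff₀ v2]
    have h1 : X L * V w2 ≤ 2 * A := by
      have h2 : X L * V w2 ≤ X L * ((q0 : ℝ) / q0.totient * V w2) := by
        refine mul_le_mul_of_nonneg_left ?_ hX0.le
        nlinarith
      linarith
    have h3 := mul_le_mul_of_nonneg_left h1 hp10.le
    linarith
  have g3 : p1 ^ 2 * (8 * X L * A / w1 + 4 * κ * A ^ 2) ≤ E ^ 2 * (64 / (V w2 * w1) + 16 * κ) := by
    have h1 : p1 ^ 2 * (8 * X L * A / w1) ≤ E ^ 2 * (64 / (V w2 * w1)) := by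
      calc p1 ^ 2 * (8 * X L * A / w1) = 8 * ((p1 * X L) * (p1 * A)) / w1 := by ring
        _ ≤ 8 * ((4 * E / V w2) * (2 * E)) / w1 := by
            have : 0 ≤ p1 * A := by positivity
            have : 0 ≤ 4 * E / V w2 := by positivity
            gcongr
        _ = _ := by
            field_simp
            ring
    have h2 : p1 ^ 2 * (4 * κ * A ^ 2) ≤ E ^ 2 * (16 * κ) := by
      have h3 : (p1 * A) ^ 2 ≤ (2 * E) ^ 2 := pow_le_pow_left₀ (by positivity) g1 2
      have h4 := mul_le_mul_of_nonneg_left h3 (show 0 ≤ 4 * κ by linarith)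
      nlinarith
    nlinarith
  have hLs : 0 < (L : ℝ) ^ s := Real.rpow_pos_of_pos hLp _
  have g4 : 1 / E + 64 / (V w2 * w1) + 16 * κ ≤ 1 / (L : ℝ) ^ s := by
    rw [le_div_iff₀ hLs]
    exact c5.le
  calc (E + p1 ^ 2 * (8 * X L * A / w1 + 4 * κ * A ^ 2)) / (θ * E) ^ 2 ≤
      (E + E ^ 2 * (64 / (V w2 * w1) + 16 * κ)) / (θ * E) ^ 2 := by gcongr
    _ = 1 / θ ^ 2 * (1 / E + 64 / (V w2 * w1) + 16 * κ) := by
        field_simp
        ring
    _ ≤ 1 / θ ^ 2 * (1 / (L : ℝ) ^ s) := by gcongr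
    _ = _ := by
        field_simp

open Classical in
/-- **The random primes in sparse sets.** -/
theorem sparse (D : Dat S X N1 N2 q0 l) (h : Model P a) (z : ℕ → ℕ) (hz : Limit z) (c : ℝ) (hc : 1 < c) :
    ∀ᵐ ω ∂P, Tendsto (fun L : ℕ => (((S L).filter (fun v => v ∈ RS z (WW c) (fun q => a q ω))).card : ℝ) * L / X L)
      atTop (𝓝 ((q0 : ℝ) / q0.totient / l)) := by
  have := prob h
  set s := min ((1 + c) / 2) 2 with hs
  have hs1 : 1 < s := lt_min (by linarith) (by norm_num)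
  have hs2 : s ≤ 2 := min_le_right _ _
  have hsc : s < c := (min_le_left _ _).trans_lt (by linarith)
  have hbad : ∀ k : ℕ, ∀ᵐ ω ∂P, ∀ᶠ L : ℕ in atTop, ω ∉ {ω | 1 / ((k : ℝ) + 1) * EN z (WW c) (S L) ≤
      |(((S L).filter (fun v => v ∈ RS z (WW c) (fun q => a q ω))).card : ℝ) - EN z (WW c) (S L)|} := by
    intro k
    exact bcs (P := P) _ (1 / (1 / ((k : ℝ) + 1)) ^ 2) s hs1 (by positivity)
      (dev_ev D h z hz c s hc hs1 hs2 hsc (1 / ((k : ℝ) + 1)) (by positivity))
  have hEN := EN_lim D z hz c hc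
  have hκ : 0 < (q0 : ℝ) / q0.totient / l := by
    have := rho_ge q0 D.q00
    have := D.l0
    positivity
  have hpos : ∀ᶠ L : ℕ in atTop, 0 < EN z (WW c) (S L) := by
    filter_upwards [hEN.eventually (lt_mem_nhds hκ), D.big 4, eventually_ge_atTop 1] with L c2 c3 c4
    have hLp : (0 : ℝ) < L := by exact_mod_cast c4
    have hX0 : 0 < X L := lt_of_lt_of_le (by positivity) c3
    by_contra hcon
    push Not at hcon
    have : EN z (WW c) (S L) * L / X L ≤ 0 := div_nonpos_of_nonpos_of_nonneg (by nlinarith) hX0.le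
    linarith
  filter_upwards [ae_all_iff.2 hbad] with ω hω
  have h1 : Tendsto (fun L : ℕ => (((S L).filter (fun v => v ∈ RS z (WW c) (fun q => a q ω))).card : ℝ) /
      EN z (WW c) (S L)) atTop (𝓝 1) := by
    rw [Metric.tendsto_atTop]
    intro ε hε
    obtain ⟨k, hk⟩ := exists_nat_one_div_lt hε
    obtain ⟨L0, hL0⟩ := eventually_atTop.1 ((hω k).and hpos)
    refine ⟨L0, fun L hL => ?_⟩
    obtain ⟨h2, h3⟩ := hL0 L hL
    rw [not_le] at h2
    rw [Real.dist_eq]
    have e1 : (((S L).filter (fun v => v ∈ RS z (WW c) (fun q => a q ω))).card : ℝ) / EN z (WW c) (S L) - 1 =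
        ((((S L).filter (fun v => v ∈ RS z (WW c) (fun q => a q ω))).card : ℝ) - EN z (WW c) (S L)) / EN z (WW c) (S L) := by
      field_simp
    rw [e1, abs_div, abs_of_pos h3, div_lt_iff₀ h3]
    refine h2.trans ?_
    exact mul_lt_mul_of_pos_right hk h3
  have h2 := h1.mul hEN
  rw [one_mul] at h2
  refine h2.congr' ?_
  filter_upwards [hpos] with L h3
  field_simp

end Pool.Agent.H559.PA
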