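import Pool.Agent.H559.SQ.Av
import Pool.Agent.H559.SQ.LLN

set_option autoImplicit false

/-! # The variance of the number of the random primes in a set with a level of distribution -/

open Finset MeasureTheory ProbabilityTheory Filter Topology
open Pool.Agent.T2H32.BF (Model prob V V_pos V_anti V_ratio)
open Pool.Agent.H559.HY (RS)
open Pool.Agent.H559.SQ (single avoid lv Tr pv mem_lv mem_RS pv_nonneg pv_le_one one_num meas_RS cntE cheb)

namespace Pool.Agent.H559.PA

variable {Ω : Type*} [MeasurableSpace Ω] {P : Measure Ω} {a : ℕ → Ω → ℕ}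

/-- the large prime divisors -/
theorem dsum (d v W1 : ℕ) (hd : 0 < d) (hdv : d ≤ v) (hW : 2 ≤ W1) (s : Finset ℕ)
    (hs : ∀ q ∈ s, q.Prime ∧ W1 < q ∧ q ∣ d) : ∑ q ∈ s, 1 / (q : ℝ) ≤ Real.log v / (W1 * Real.log W1) := by
  have hW0 : (2 : ℝ) ≤ W1 := by exact_mod_cast hW
  have hlogW : 0 < Real.log W1 := Real.log_pos (by linarith)
  have hcard : (s.card : ℝ) * Real.log W1 ≤ Real.log v := by
    have h1 : ∏ q ∈ s, q ∣ d := prod_primes_dvd _ (fun q hq => (hs q hq).1.prime) (fun q hq => (hs q hq).2.2)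
    have h2 : ∏ q ∈ s, q ≤ d := Nat.le_of_dvd hd h1
    have h3 : W1 ^ s.card ≤ ∏ q ∈ s, q := by
      rw [← prod_const]
      exact prod_le_prod' fun q hq => (hs q hq).2.1.le
    have h4 : W1 ^ s.card ≤ v := h3.trans (h2.trans hdv)
    have h5 : ((W1 : ℝ)) ^ s.card ≤ v := by exact_mod_cast h4
    have h6 := Real.log_le_log (by positivity) h5
    rwa [Real.log_pow] at h6
  calc ∑ q ∈ s, 1 / (q : ℝ) ≤ ∑ _q ∈ s, 1 / (W1 : ℝ) := by
        refine sum_le_sum fun q hq => ?_
        have : (W1 : ℝ) ≤ q := by exact_mod_cast (hs q hq).2.1.le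
        apply one_div_le_one_div_of_le <;> linarith
    _ = s.card * (1 / (W1 : ℝ)) := by rw [sum_const, nsmul_eq_mul]
    _ ≤ Real.log v / Real.log W1 * (1 / (W1 : ℝ)) := by
        gcongr
        rw [le_div_iff₀ hlogW]
        exact hcard
    _ = _ := by field_simp

/-- two numbers, refined -/
theorem two_ref (h : Model P a) (z W : ℕ → ℕ) (u v : ℕ) (huv : u < v) (hTu : Tr z W u) (hTv : Tr z W v)
    (W1 Y : ℕ) (hWv : W1 ≤ W v) (hY : 2 ≤ Y) :
    P.real ({ω | u ∈ RS z W (fun q => a q ω)} ∩ {ω | v ∈ RS z W (fun q => a q ω)}) ≤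
      pv z W u * pv z W v * Real.exp (2 * (∑ q ∈ (Ioc W1 Y).filter (fun q => q.Prime ∧ q ∣ v - u), 1 / (q : ℝ) +
        Real.log v / (Y * Real.log Y))) := by
  classical
  set K : ℕ → Finset ℕ := fun q => (if q ∈ lv z W u then {u % q} else ∅) ∪ (if q ∈ lv z W v then {v % q} else ∅)
    with hK
  set L := lv z W u ∪ lv z W v with hL
  have hLp : ∀ q ∈ L, q.Prime := by
    intro q hq
    rcases mem_union.1 hq with h1 | h1
    · exact ((mem_lv z W u q).1 h1).2.2
    · exact ((mem_lv z W v q).1 h1).2.2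
  have e : {ω | u ∈ RS z W (fun q => a q ω)} ∩ {ω | v ∈ RS z W (fun q => a q ω)} = {ω | ∀ q ∈ L, a q ω ∉ K q} := by
    ext ω
    simp only [Set.mem_inter_iff, Set.mem_ofPred_eq, mem_RS, hK, hL, mem_union]
    constructor
    · rintro ⟨⟨_, h1⟩, ⟨_, h2⟩⟩ q _ h4
      rcases h4 with h4 | h4
      · split_ifs at h4 with h5
        · exact h1 q h5 h4
        · simp at h4
      · split_ifs at h4 with h5
        · exact h2 q h5 h4
        · simp at h4
    · intro h1
      refine ⟨⟨hTu, fun q hq h2 => h1 q (Or.inl hq) (Or.inl ?_)⟩, ⟨hTv, fun q hq h2 => h1 q (Or.inr hq) (Or.inr ?_)⟩⟩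
      · rw [if_pos hq]
        exact h2
      · rw [if_pos hq]
        exact h2
  rw [e, avoid h L hLp K]
  swap
  · intro q hq
    simp only [hK]
    refine union_subset ?_ ?_
    · split_ifs
      · rw [singleton_subset_iff, mem_range]
        exact Nat.mod_lt _ (hLp q hq).pos
      · exact empty_subset _
    · split_ifs
      · rw [singleton_subset_iff, mem_range]
        exact Nat.mod_lt _ (hLp q hq).pos
      · exact empty_subset _
  set D := L.filter (fun q => q ∈ lv z W u ∧ q ∈ lv z W v ∧ q ∣ v - u) with hD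
  have e1 : pv z W u = ∏ q ∈ L, (if q ∈ lv z W u then (1 - 1 / (q : ℝ)) else 1) := by
    unfold pv
    rw [← prod_filter]
    refine prod_congr ?_ fun _ _ => rfl
    ext q
    simp only [hL, mem_filter, mem_union]
    tauto
  have e2 : pv z W v = ∏ q ∈ L, (if q ∈ lv z W v then (1 - 1 / (q : ℝ)) else 1) := by
    unfold pv
    rw [← prod_filter]
    refine prod_congr ?_ fun _ _ => rfl
    ext q
    simp only [hL, mem_filter, mem_union]
    tauto
  have e3 : ∏ q ∈ D, (1 - 1 / (q : ℝ))⁻¹ =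
      ∏ q ∈ L, (if q ∈ lv z W u ∧ q ∈ lv z W v ∧ q ∣ v - u then (1 - 1 / (q : ℝ))⁻¹ else 1) := by
    rw [hD, prod_filter]
  have hfac : ∀ q ∈ L, (2 : ℝ) ≤ q := fun q hq => by exact_mod_cast (hLp q hq).two_le
  have hmain : ∏ q ∈ L, (1 - ((K q).card : ℝ) / q) ≤ pv z W u * pv z W v * ∏ q ∈ D, (1 - 1 / (q : ℝ))⁻¹ := by
    rw [e1, e2, e3, ← prod_mul_distrib, ← prod_mul_distrib]
    refine prod_le_prod (fun q hq => ?_) (fun q hq => ?_)
    · have h1 : (K q).card ≤ 2 := by
        simp only [hK]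
        refine (card_union_le _ _).trans ?_
        split_ifs <;> simp
      have h2 := hfac q hq
      have h3 : ((K q).card : ℝ) ≤ 2 := by exact_mod_cast h1
      have : ((K q).card : ℝ) / q ≤ 1 := by
        rw [div_le_one (by linarith)]
        linarith
      linarith
    · have h2 := hfac q hq
      have hq0 : (0 : ℝ) < q := by linarith
      have hi : 0 < 1 / (q : ℝ) := by positivity
      have hi2 : 1 / (q : ℝ) ≤ 1 / 2 := by
        apply one_div_le_one_div_of_le <;> linarith
      by_cases hu : q ∈ lv z W u <;> by_cases hv : q ∈ lv z W v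
      · by_cases hd : q ∣ v - u
        · rw [if_pos hu, if_pos hv, if_pos ⟨hu, hv, hd⟩]
          have hc : u % q = v % q := (Nat.modEq_iff_dvd' huv.le).2 hd
          have hK1 : (K q).card = 1 := by
            simp only [hK, if_pos hu, if_pos hv]
            rw [← hc, union_self, card_singleton]
          rw [hK1, Nat.cast_one]
          have h3 : (1 - 1 / (q : ℝ)) ≠ 0 := by linarith
          have : (1 - 1 / (q : ℝ)) * (1 - 1 / (q : ℝ)) * (1 - 1 / (q : ℝ))⁻¹ = 1 - 1 / (q : ℝ) := by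
            rw [mul_assoc, mul_inv_cancel₀ h3, mul_one]
          rw [this]
        · rw [if_pos hu, if_pos hv, if_neg (fun h => hd h.2.2)]
          have hc : u % q ≠ v % q := fun h3 => hd ((Nat.modEq_iff_dvd' huv.le).1 h3)
          have hK2 : (K q).card = 2 := by
            simp only [hK, if_pos hu, if_pos hv]
            rw [card_union_of_disjoint (by simpa using hc), card_singleton, card_singleton]
          rw [hK2]
          have : ((2 : ℕ) : ℝ) / q = 2 * (1 / q) := by
            push_cast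
            ring
          rw [this, mul_one]
          nlinarith
      · rw [if_pos hu, if_neg hv, if_neg (fun h => hv h.2.1)]
        have hK1 : (K q).card = 1 := by
          simp only [hK, if_pos hu, if_neg hv]
          rw [union_empty, card_singleton]
        rw [hK1, Nat.cast_one]
        simp
      · rw [if_neg hu, if_pos hv, if_neg (fun h => hu h.1)]
        have hK1 : (K q).card = 1 := by
          simp only [hK, if_neg hu, if_pos hv]
          rw [empty_union, card_singleton]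
        rw [hK1, Nat.cast_one]
        simp
      · exact absurd (mem_union.1 hq) (by tauto)
  refine hmain.trans ?_
  refine mul_le_mul_of_nonneg_left ?_ (mul_nonneg (pv_nonneg _ _ _) (pv_nonneg _ _ _))
  have hDp : ∀ q ∈ D, q.Prime ∧ W1 < q ∧ q ∣ v - u := by
    intro q hq
    have h1 := mem_filter.1 hq
    exact ⟨hLp q h1.1, hWv.trans_lt ((mem_lv z W v q).1 h1.2.2.1).1, h1.2.2.2⟩
  have h1 : ∏ q ∈ D, (1 - 1 / (q : ℝ))⁻¹ ≤ ∏ q ∈ D, Real.exp (2 * (1 / (q : ℝ))) := by
    refine prod_le_prod (fun q hq => ?_) (fun q hq => ?_)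
    · have h2 : (2 : ℝ) ≤ q := by exact_mod_cast (hDp q hq).1.two_le
      have : 1 / (q : ℝ) ≤ 1 := by
        rw [div_le_one (by linarith)]
        linarith
      exact inv_nonneg.2 (by linarith)
    · have h2 : (2 : ℝ) ≤ q := by exact_mod_cast (hDp q hq).1.two_le
      have h4 : 1 / (q : ℝ) ≤ 1 / 2 := by
        apply one_div_le_one_div_of_le <;> linarith
      have h5 : (0 : ℝ) < 1 / q := by positivity
      have h6 : (1 - 1 / (q : ℝ))⁻¹ ≤ 1 + 2 * (1 / q) := by
        rw [inv_le_comm₀ (by linarith) (by linarith)]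
        rw [inv_le_comm₀ (by linarith) (by linarith)]
        rw [inv_le_iff_one_le_mul₀ (by linarith)]
        nlinarith
      have h8 := Real.add_one_le_exp (2 * (1 / (q : ℝ)))
      linarith
  refine h1.trans ?_
  rw [← Real.exp_sum, ← mul_sum]
  refine Real.exp_le_exp.2 (mul_le_mul_of_nonneg_left ?_ (by norm_num))
  rw [← sum_filter_add_sum_filter_not D (fun q => q ≤ Y)]
  refine add_le_add ?_ ?_
  · refine sum_le_sum_of_subset_of_nonneg ?_ fun _ _ _ => by positivity
    intro q hq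
    rw [mem_filter] at hq
    have h2 := hDp q hq.1
    rw [mem_filter, mem_Ioc]
    exact ⟨⟨h2.2.1, hq.2⟩, h2.1, h2.2.2⟩
  · refine dsum (v - u) v Y (by omega) (Nat.sub_le _ _) hY _ fun q hq => ?_
    rw [mem_filter] at hq
    have h2 := hDp q hq.1
    exact ⟨h2.1, not_le.1 hq.2, h2.2.2⟩

theorem inv_sq_le (W1 Y : ℕ) (hW : 1 ≤ W1) (hY : W1 ≤ Y) :
    ∑ q ∈ (Ioc W1 Y).filter Nat.Prime, 1 / (q : ℝ) ^ 2 ≤ 1 / (W1 : ℝ) := by
  have h1 := sum_Ioc_inv_sq_le_sub (α := ℝ) (show W1 ≠ 0 by omega) hY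
  calc ∑ q ∈ (Ioc W1 Y).filter Nat.Prime, 1 / (q : ℝ) ^ 2 ≤ ∑ q ∈ Ioc W1 Y, 1 / (q : ℝ) ^ 2 :=
        sum_le_sum_of_subset_of_nonneg (filter_subset _ _) fun _ _ _ => by positivity
    _ = ∑ q ∈ Ioc W1 Y, ((q : ℝ) ^ 2)⁻¹ := by simp only [one_div]
    _ ≤ _ := h1
    _ ≤ 1 / W1 := by
        rw [one_div]
        have : 0 ≤ ((Y : ℝ))⁻¹ := by positivity
        linarith

theorem exp_sub_one (t : ℝ) (h0 : 0 ≤ t) (h1 : t ≤ 1 / 2) : Real.exp t - 1 ≤ 2 * t := by
  have h9 := Real.exp_bound_div_one_sub_of_interval h0 (by linarith : t < 1)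
  have h10 : 1 / (1 - t) ≤ 1 + 2 * t := by
    rw [div_le_iff₀ (by linarith)]
    nlinarith
  linarith

open Classical in
/-- **Chebyshev's inequality** -/
theorem var_le (h : Model P a) (z W : ℕ → ℕ) (S : Finset ℕ) (W1 Y N : ℕ) (X p1 : ℝ) (hW1 : 2 ≤ W1) (hWY : W1 ≤ Y)
    (hX : 0 ≤ X) (hS : ∀ v ∈ S, v ≤ N ∧ W1 ≤ W v ∧ pv z W v ≤ p1)
    (hcl : ∀ q ∈ (Ioc W1 Y).filter Nat.Prime, ∀ u : ℕ, ((S.filter (fun v => v % q = u % q)).card : ℝ) ≤ 2 * X / q)
    (hsm : Real.log N / (W1 * Real.log W1) + Real.log N / (Y * Real.log Y) ≤ 1 / 4) (t : ℝ) (ht : 0 < t) :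
    P.real {ω | t ≤ |((S.filter (fun v => v ∈ RS z W (fun q => a q ω))).card : ℝ) -
        ∑ v ∈ S.filter (Tr z W), pv z W v|} ≤
      (∑ v ∈ S.filter (Tr z W), pv z W v + p1 ^ 2 * (8 * X * (S.filter (Tr z W)).card / W1 +
        4 * (Real.log N / (Y * Real.log Y)) * ((S.filter (Tr z W)).card : ℝ) ^ 2)) / t ^ 2 := by
  have := prob h
  set A := S.filter (Tr z W) with hA
  have hAS : ∀ v ∈ A, v ∈ S ∧ Tr z W v := fun v hv => mem_filter.1 hv
  set E : ℕ → Set Ω := fun n => if n ∈ A then {ω | n ∈ RS z W (fun q => a q ω)} else ∅ with hE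
  have hEm : ∀ n, MeasurableSet (E n) := by
    intro n
    simp only [hE]
    split_ifs
    · exact meas_RS h z W n
    · exact MeasurableSet.empty
  have hsub : A ⊆ range (N + 1) := fun v hv => mem_range.2 (by have := (hS v (hAS v hv).1).1; omega)
  have hPE : ∀ n, P.real (E n) = if n ∈ A then pv z W n else 0 := by
    intro n
    simp only [hE]
    split_ifs with h1
    · exact one_num h z W n (hAS n h1).2
    · simp
  have hcnt : ∀ ω, cntE E N ω = ((S.filter (fun v => v ∈ RS z W (fun q => a q ω))).card : ℝ) := by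
    intro ω
    unfold cntE
    rw [card_filter, Nat.cast_sum]
    rw [← sum_subset (s₁ := A) hsub]
    · rw [hA, sum_filter]
      refine sum_congr rfl fun v hv => ?_
      have e1 : v ∈ A ↔ Tr z W v := by rw [hA, mem_filter]; exact ⟨fun h => h.2, fun h => ⟨hv, h⟩⟩
      by_cases h1 : Tr z W v
      · rw [if_pos h1]
        simp only [hE, if_pos (e1.2 h1), Set.indicator, Set.mem_ofPred_eq]
        split_ifs <;> simp
      · rw [if_neg h1, if_neg]
        · simp
        · intro h2
          exact h1 ((mem_RS z W _ v).1 h2).1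
    · intro v _ hv
      simp [hE, hv]
  have hmean : ∑ n ∈ range (N + 1), P.real (E n) = ∑ v ∈ A, pv z W v := by
    rw [← sum_subset (s₁ := A) hsub]
    · refine sum_congr rfl fun v hv => ?_
      rw [hPE, if_pos hv]
    · intro v _ hv
      rw [hPE, if_neg hv]
  have hch := cheb (P := P) E hEm N t ht
  simp only [hcnt, hmean] at hch
  refine hch.trans ?_
  rw [div_le_div_iff_of_pos_right (by positivity)]
  have hzero1 : ∀ m n, m ∉ A → P.real (E m ∩ E n) - P.real (E m) * P.real (E n) = 0 := by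
    intro m n hm
    simp [hE, hm]
  have hzero2 : ∀ m n, n ∉ A → P.real (E m ∩ E n) - P.real (E m) * P.real (E n) = 0 := by
    intro m n hm
    simp [hE, hm]
  rw [← sum_subset (s₁ := A) hsub (fun m _ hm => sum_eq_zero fun n _ => hzero1 m n hm)]
  have hstep : ∀ m ∈ A, ∑ n ∈ range (N + 1), (P.real (E m ∩ E n) - P.real (E m) * P.real (E n)) =
      ∑ n ∈ A, (P.real (E m ∩ E n) - P.real (E m) * P.real (E n)) := fun m _ =>
    (sum_subset (s₁ := A) hsub (fun n _ hn => hzero2 m n hn)).symm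
  rw [sum_congr rfl hstep]
  set κ := Real.log N / (Y * Real.log Y) with hκ
  set Q := (Ioc W1 Y).filter Nat.Prime with hQ
  have hY2 : 2 ≤ Y := hW1.trans hWY
  have hκ0 : 0 ≤ κ := by
    have h1 : (2 : ℝ) ≤ Y := by exact_mod_cast hY2
    have h2 := Real.log_natCast_nonneg N
    have h3 := Real.log_natCast_nonneg Y
    positivity
  have hp1 : ∀ v ∈ A, pv z W v ≤ p1 := fun v hv => (hS v (hAS v hv).1).2.2
  -- the covariances
  have hpair : ∀ u v, u ∈ A → v ∈ A → u < v → P.real (E u ∩ E v) - P.real (E u) * P.real (E v) ≤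
      p1 ^ 2 * (4 * (∑ q ∈ Q, if v % q = u % q then 1 / (q : ℝ) else 0) + 4 * κ) := by
    intro u v hu hv huv
    have hvN := (hS v (hAS v hv).1).1
    have h1 := two_ref h z W u v huv (hAS u hu).2 (hAS v hv).2 W1 Y (hS v (hAS v hv).1).2.1 hY2
    have e1 : E u ∩ E v = {ω | u ∈ RS z W (fun q => a q ω)} ∩ {ω | v ∈ RS z W (fun q => a q ω)} := by
      simp only [hE, if_pos hu, if_pos hv]
    rw [hPE, hPE, if_pos hu, if_pos hv, e1]
    have hv0 : 0 < v := by omega
    have hlv : Real.log v ≤ Real.log N := Real.log_le_log (by exact_mod_cast hv0) (by exact_mod_cast hvN)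
    have hlv0 : 0 ≤ Real.log v := Real.log_natCast_nonneg v
    have hYr : (2 : ℝ) ≤ Y := by exact_mod_cast hY2
    have hWr : (2 : ℝ) ≤ W1 := by exact_mod_cast hW1
    have hlY : 0 < Real.log Y := Real.log_pos (by linarith)
    have hlW : 0 < Real.log W1 := Real.log_pos (by linarith)
    have e2 : ∑ q ∈ (Ioc W1 Y).filter (fun q => q.Prime ∧ q ∣ v - u), 1 / (q : ℝ) =
        ∑ q ∈ Q, if v % q = u % q then 1 / (q : ℝ) else 0 := by
      rw [← sum_filter, hQ, filter_filter]
      refine sum_congr ?_ fun _ _ => rfl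
      ext q
      simp only [mem_filter]
      rw [← Nat.modEq_iff_dvd' huv.le]
      exact ⟨fun h => ⟨h.1, h.2.1, h.2.2.symm⟩, fun h => ⟨h.1, h.2.1, h.2.2.symm⟩⟩
    set T := ∑ q ∈ Q, if v % q = u % q then 1 / (q : ℝ) else 0 with hT
    have hT0 : 0 ≤ T := sum_nonneg fun q _ => by split_ifs <;> positivity
    have hT1 : T ≤ Real.log N / (W1 * Real.log W1) := by
      rw [← e2]
      refine (dsum (v - u) v W1 (by omega) (Nat.sub_le _ _) hW1 _ fun q hq => ?_).trans ?_
      · rw [mem_filter, mem_Ioc] at hq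
        exact ⟨hq.2.1, hq.1.1, hq.2.2⟩
      · gcongr
    rw [e2] at h1
    have h2 : Real.log v / (Y * Real.log Y) ≤ κ := by
      rw [hκ]
      gcongr
    have h3 : Real.exp (2 * (T + Real.log v / (Y * Real.log Y))) - 1 ≤ 2 * (2 * (T + κ)) := by
      refine le_trans ?_ (exp_sub_one (2 * (T + κ)) (by positivity) (by linarith))
      have := Real.exp_le_exp.2 (show 2 * (T + Real.log v / (Y * Real.log Y)) ≤ 2 * (T + κ) by linarith)
      linarith
    have hpu0 := pv_nonneg z W u
    have hpv0 := pv_nonneg z W v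
    have h4 : pv z W u * pv z W v ≤ p1 ^ 2 := by
      rw [sq]
      exact mul_le_mul (hp1 u hu) (hp1 v hv) hpv0 (hpu0.trans (hp1 u hu))
    calc _ ≤ pv z W u * pv z W v * Real.exp (2 * (T + Real.log v / (Y * Real.log Y))) - pv z W u * pv z W v := by
          linarith
      _ = pv z W u * pv z W v * (Real.exp (2 * (T + Real.log v / (Y * Real.log Y))) - 1) := by ring
      _ ≤ p1 ^ 2 * (2 * (2 * (T + κ))) := by
          refine mul_le_mul h4 h3 ?_ (by positivity)
          have h5 : 0 ≤ 2 * (T + Real.log v / (Y * Real.log Y)) := by positivity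
          have := Real.one_le_exp h5
          linarith
      _ = _ := by ring
  have hcov : ∀ m ∈ A, ∀ n ∈ A, P.real (E m ∩ E n) - P.real (E m) * P.real (E n) ≤
      (if n = m then pv z W m else 0) + p1 ^ 2 * (4 * (∑ q ∈ Q, if n % q = m % q then 1 / (q : ℝ) else 0) + 4 * κ) := by
    intro m hm n hn
    have hnn : 0 ≤ p1 ^ 2 * (4 * (∑ q ∈ Q, if n % q = m % q then 1 / (q : ℝ) else 0) + 4 * κ) := by
      have : 0 ≤ ∑ q ∈ Q, if n % q = m % q then 1 / (q : ℝ) else 0 := sum_nonneg fun q _ => by split_ifs <;> positivity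
      positivity
    rcases lt_trichotomy m n with h1 | h1 | h1
    · rw [if_neg h1.ne', zero_add]
      exact hpair m n hm hn h1
    · subst h1
      rw [if_pos rfl, Set.inter_self, hPE, if_pos hm]
      have := pv_nonneg z W m
      nlinarith
    · rw [if_neg h1.ne, zero_add]
      have h2 := hpair n m hn hm h1
      rw [Set.inter_comm, mul_comm (P.real (E m))]
      refine h2.trans (le_of_eq ?_)
      have e4 : (∑ q ∈ Q, if m % q = n % q then 1 / (q : ℝ) else 0) = ∑ q ∈ Q, if n % q = m % q then 1 / (q : ℝ) else 0 := by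
        refine sum_congr rfl fun q _ => ?_
        by_cases h3 : m % q = n % q
        · rw [if_pos h3, if_pos h3.symm]
        · rw [if_neg h3, if_neg (fun h => h3 h.symm)]
      rw [e4]
  calc ∑ m ∈ A, ∑ n ∈ A, (P.real (E m ∩ E n) - P.real (E m) * P.real (E n)) ≤
      ∑ m ∈ A, ∑ n ∈ A, ((if n = m then pv z W m else 0) +
        p1 ^ 2 * (4 * (∑ q ∈ Q, if n % q = m % q then 1 / (q : ℝ) else 0) + 4 * κ)) :=
        sum_le_sum fun m hm => sum_le_sum fun n hn => hcov m hm n hn
    _ = ∑ m ∈ A, pv z W m + ∑ m ∈ A, p1 ^ 2 * (4 * (∑ q ∈ Q, (1 / (q : ℝ)) * ((A.filter (fun n => n % q = m % q)).card : ℝ)) +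
          4 * κ * A.card) := by
        rw [← sum_add_distrib]
        refine sum_congr rfl fun m hm => ?_
        rw [sum_add_distrib, sum_ite_eq' A m (fun _ => pv z W m), if_pos hm, ← mul_sum, sum_add_distrib, ← mul_sum,
          sum_comm, sum_const, nsmul_eq_mul]
        congr 3
        · refine congrArg _ (sum_congr rfl fun q _ => ?_)
          rw [← sum_filter, sum_const, nsmul_eq_mul]
          ring
        · ring
    _ ≤ ∑ m ∈ A, pv z W m + ∑ m ∈ A, p1 ^ 2 * (4 * (2 * X * (1 / W1)) + 4 * κ * A.card) := by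
        refine add_le_add le_rfl (sum_le_sum fun m hm => ?_)
        refine mul_le_mul_of_nonneg_left ?_ (sq_nonneg _)
        refine add_le_add (mul_le_mul_of_nonneg_left ?_ (by norm_num)) le_rfl
        calc ∑ q ∈ Q, (1 / (q : ℝ)) * ((A.filter (fun n => n % q = m % q)).card : ℝ) ≤
            ∑ q ∈ Q, 2 * X * (1 / (q : ℝ) ^ 2) := by
              refine sum_le_sum fun q hq => ?_
              have h1 : ((A.filter (fun n => n % q = m % q)).card : ℝ) ≤ 2 * X / q := by
                refine le_trans ?_ (hcl q hq m)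
                exact_mod_cast card_le_card (filter_subset_filter _ (filter_subset _ _))
              have h2 : (0 : ℝ) ≤ 1 / q := by positivity
              calc (1 / (q : ℝ)) * ((A.filter (fun n => n % q = m % q)).card : ℝ) ≤ (1 / (q : ℝ)) * (2 * X / q) :=
                    mul_le_mul_of_nonneg_left h1 h2
                _ = _ := by
                    rw [hQ, mem_filter] at hq
                    have : (q : ℝ) ≠ 0 := by exact_mod_cast hq.2.ne_zero
                    field_simp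
          _ = 2 * X * ∑ q ∈ Q, (1 / (q : ℝ) ^ 2) := by rw [mul_sum]
          _ ≤ 2 * X * (1 / W1) := mul_le_mul_of_nonneg_left (inv_sq_le W1 Y (by omega) hWY) (by linarith)
    _ = _ := by
        rw [sum_const, nsmul_eq_mul]
        ring

end Pool.Agent.H559.PA
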