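import Pool.Agent.H559.PA.Gen

set_option autoImplicit false

/-! # Residue classes of sparse sets -/

open Finset Filter Topology

namespace Pool.Agent.H559.PA

variable {S : ℕ → Finset ℕ} {X : ℕ → ℝ} {N1 N2 : ℕ → ℕ} {q0 : ℕ} {l : ℝ}

theorem Dat.res (D : Dat S X N1 N2 q0 l) (m r : ℕ) (hm : 0 < m) (hmc : m.Coprime q0) (hr : r.Coprime m) :
    Dat (fun L => (S L).filter (fun v => v % m = r % m)) (fun L => X L / m) N1 N2 (q0 * m) l where
  l0 := D.l0
  q00 := Nat.mul_pos D.q00 hm
  n1 := D.n1
  n2 := D.n2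
  mem := by
    filter_upwards [D.mem] with L hL v hv
    rw [mem_filter] at hv
    obtain ⟨h1, h2, h3⟩ := hL v hv.1
    refine ⟨h1, h2, Nat.Coprime.mul_right h3 ?_⟩
    have h4 : v.gcd m = r.gcd m := by
      rw [Nat.gcd_comm v, Nat.gcd_comm r, Nat.gcd_rec m v, Nat.gcd_rec m r, hv.2]
    rw [Nat.Coprime, h4]
    exact hr
  big := by
    intro K
    filter_upwards [D.big (K + 1), eventually_ge_atTop m] with L h1 h2
    have hm0 : (0 : ℝ) < m := by exact_mod_cast hm
    have h3 : (m : ℝ) ≤ L := by exact_mod_cast h2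
    rw [le_div_iff₀ hm0]
    have h4 : (0 : ℝ) ≤ (L : ℝ) ^ K := by positivity
    calc (L : ℝ) ^ K * m ≤ (L : ℝ) ^ K * L := mul_le_mul_of_nonneg_left h3 h4
      _ = (L : ℝ) ^ (K + 1) := by ring
      _ ≤ X L := h1
  dist := by
    intro K A
    filter_upwards [D.dist (K + 1) (A + 1), eventually_ge_atTop m, D.big 0] with L h1 h2 h0 ρ
    have hm0 : (0 : ℝ) < m := by exact_mod_cast hm
    have hmL : (m : ℝ) ≤ L := by exact_mod_cast h2
    have hX : 0 ≤ X L := by
      rw [pow_zero] at h0
      linarith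
    have hcrt : ∀ q : ℕ, ∃ t : ℕ, q.Coprime m → (t ≡ r [MOD m] ∧ t ≡ ρ q [MOD q]) := by
      intro q
      by_cases h3 : q.Coprime m
      · exact ⟨(Nat.chineseRemainder h3.symm r (ρ q)).1, fun _ => (Nat.chineseRemainder h3.symm r (ρ q)).2⟩
      · exact ⟨0, fun h4 => absurd h4 h3⟩
    choose t ht using hcrt
    have h3 : ∀ q ∈ (Icc 1 (L ^ K)).filter (fun q => q.Coprime (q0 * m)),
        |((((S L).filter (fun v => v % m = r % m)).filter (fun v => v % q = ρ q % q)).card : ℝ) - X L / m / q| =
          |(((S L).filter (fun v => v % (m * q) = t (m * q / m) % (m * q))).card : ℝ) - X L / ((m * q : ℕ) : ℝ)| := by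
      intro q hq
      rw [mem_filter, mem_Icc] at hq
      have hqm : q.Coprime m := Nat.Coprime.coprime_mul_left_right hq.2
      have e1 : m * q / m = q := Nat.mul_div_cancel_left q hm
      rw [e1, filter_filter]
      obtain ⟨ht1, ht2⟩ := ht q hqm
      congr 2
      · congr 2
        ext v
        simp only [mem_filter, and_congr_right_iff]
        intro _
        change (v ≡ r [MOD m] ∧ v ≡ ρ q [MOD q]) ↔ v ≡ t q [MOD m * q]
        rw [← Nat.modEq_and_modEq_iff_modEq_mul hqm.symm]
        constructor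
        · rintro ⟨a1, a2⟩
          exact ⟨a1.trans ht1.symm, a2.trans ht2.symm⟩
        · rintro ⟨a1, a2⟩
          exact ⟨a1.trans ht1, a2.trans ht2⟩
      · push_cast
        rw [div_div]
    rw [sum_congr rfl h3]
    calc ∑ q ∈ (Icc 1 (L ^ K)).filter (fun q => q.Coprime (q0 * m)),
          |(((S L).filter (fun v => v % (m * q) = t (m * q / m) % (m * q))).card : ℝ) - X L / ((m * q : ℕ) : ℝ)| =
        ∑ n ∈ ((Icc 1 (L ^ K)).filter (fun q => q.Coprime (q0 * m))).image (fun q => m * q),
          |(((S L).filter (fun v => v % n = t (n / m) % n)).card : ℝ) - X L / n| := by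
          rw [sum_image]
          intro x _ y _ hxy
          exact Nat.eq_of_mul_eq_mul_left hm hxy
      _ ≤ ∑ n ∈ (Icc 1 (L ^ (K + 1))).filter (fun n => n.Coprime q0),
          |(((S L).filter (fun v => v % n = t (n / m) % n)).card : ℝ) - X L / n| := by
          refine sum_le_sum_of_subset_of_nonneg ?_ fun _ _ _ => abs_nonneg _
          intro n hn
          rw [mem_image] at hn
          obtain ⟨q, hq, rfl⟩ := hn
          rw [mem_filter, mem_Icc] at hq ⊢
          refine ⟨⟨Nat.mul_pos hm hq.1.1, ?_⟩, Nat.Coprime.mul_left hmc (Nat.Coprime.coprime_mul_right_right hq.2)⟩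
          calc m * q ≤ L * L ^ K := Nat.mul_le_mul h2 hq.1.2
            _ = L ^ (K + 1) := by ring
      _ ≤ X L / (L : ℝ) ^ (A + 1) := h1 (fun n => t (n / m))
      _ ≤ X L / m / (L : ℝ) ^ A := by
          have hL0 : (0 : ℝ) < L := hm0.trans_le hmL
          rw [div_div]
          refine div_le_div_of_nonneg_left hX (by positivity) ?_
          rw [pow_succ]
          have : (0 : ℝ) ≤ (L : ℝ) ^ A := by positivity
          nlinarith

end Pool.Agent.H559.PA
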