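import Pool.Agent.H559.PA.Main
import Pool.Agent.H559.PA.Res
import Pool.Graph.R_seed8.H476R2.Pal.BV2
import Pool.Graph.R_seed8.H861R2.Pal.T12
import Pool.Graph.R_seed8.H329R2.PalT13

set_option autoImplicit false

/-! # The palindromes -/

open Finset Filter Topology
open Pool.Agent.H476R2.Pal (cnt pv BV2)
open Pool.Agent.H861R2.Pal (palin pvl palin_eq pvl_inj modEq_shift pvl_pv)

namespace Pool.Agent.H559.PA

/-- the palindromes with `2 L + 1` digits and with the last digit `d` -/
def SP (d L : ℕ) : Finset ℕ := (palin L).filter (fun v => v % 10 = d)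

/-- the last digits -/
def TD : Finset ℕ := (Icc 1 9).filter (fun l => l.Coprime 10)

theorem cardS (d : ℕ) (hd : d ∈ TD) (L : ℕ) (hL : 1 ≤ L) (q r : ℕ) (hq : 1 ≤ q) :
    (((SP d L).filter (fun v => v % q = r % q)).card : ℝ) =
      cnt L q (r + (q - 1) * ((d - 1) * (10 ^ (2 * L) + 1))) := by
  unfold TD at hd
  rw [mem_filter, mem_Icc] at hd
  have hd10 : d % 10 = d := Nat.mod_eq_of_lt (by omega)
  unfold SP
  rw [filter_filter, palin_eq L hL, filter_image, card_image_of_injOn]
  · rw [card_filter, sum_product, Nat.cast_sum]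
    rw [sum_eq_single d]
    · rw [← card_filter, cnt]
      congr 2
      apply filter_congr
      intro m _
      have h : pvl d L m % 10 = d % 10 := Pool.Agent.H329R2.PalT13.pvl_mod d L hL m
      dsimp only
      rw [h, hd10, pvl_pv hd.1.1]
      constructor
      · rintro ⟨_, h2⟩
        exact (modEq_shift hq).1 h2
      · intro h2
        exact ⟨rfl, (modEq_shift hq).2 h2⟩
    · intro l hl hld
      rw [mem_Icc] at hl
      have : ∀ m : Fin L → Fin 10, ¬ (pvl l L m % 10 = d ∧ pvl l L m % q = r % q) := by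
        intro m h2
        have h : pvl l L m % 10 = l % 10 := Pool.Agent.H329R2.PalT13.pvl_mod l L hL m
        rw [h, Nat.mod_eq_of_lt (by omega)] at h2
        exact hld h2.1
      simp only [this, if_false, sum_const_zero, Nat.cast_zero]
    · intro h
      rw [mem_Icc] at h
      omega
  · intro x hx y hy hxy
    rw [mem_coe, mem_filter, mem_product, mem_Icc] at hx hy
    exact pvl_inj L hL (show x.1 ≤ 9 from hx.1.1.2) (show y.1 ≤ 9 from hy.1.1.2) hxy

theorem pow_small (K : ℕ) : ∀ᶠ L : ℕ in atTop, L ^ K ≤ ⌊(10 : ℝ) ^ ((3 / 5 : ℝ) * L)⌋₊ := by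
  have h1 : Tendsto (fun L : ℕ => (L : ℝ) ^ K * Real.exp (-((3 / 5 * Real.log 10) * L))) atTop (𝓝 0) := by
    have h2 := Real.tendsto_pow_mul_exp_neg_atTop_nhds_zero K
    have hb : 0 < 3 / 5 * Real.log 10 := by
      have := Real.log_pos (show (1 : ℝ) < 10 by norm_num)
      positivity
    generalize 3 / 5 * Real.log 10 = b at hb ⊢
    have h3 : Tendsto (fun L : ℕ => b * (L : ℝ)) atTop atTop :=
      Tendsto.const_mul_atTop hb tendsto_natCast_atTop_atTop
    have h4 := (h2.comp h3).const_mul ((b ^ K)⁻¹)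
    rw [mul_zero] at h4
    refine h4.congr fun L => ?_
    simp only [Function.comp_apply]
    rw [mul_pow]
    field_simp
  filter_upwards [h1.eventually (gt_mem_nhds (show (0 : ℝ) < 1 by norm_num))] with L hL
  refine Nat.le_floor ?_
  rw [Real.exp_neg, ← div_eq_mul_inv, div_lt_one (Real.exp_pos _)] at hL
  rw [Nat.cast_pow]
  refine hL.le.trans (le_of_eq ?_)
  rw [Real.rpow_def_of_pos (by norm_num)]
  congr 1
  ring

theorem Dpal (d : ℕ) (hd : d ∈ TD) :
    Dat (SP d) (fun L => 10 ^ L) (fun L => 10 ^ (2 * L)) (fun L => 10 ^ (2 * L + 1)) 10 (2 * Real.log 10) where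
  l0 := by
    have := Real.log_pos (show (1 : ℝ) < 10 by norm_num)
    positivity
  q00 := by norm_num
  n1 := by
    refine tendsto_const_nhds.congr' ?_
    filter_upwards [eventually_ge_atTop 1] with L hL
    have hL0 : (0 : ℝ) < L := by exact_mod_cast hL
    push_cast
    rw [Real.log_pow]
    push_cast
    field_simp
  n2 := by
    have h1 : Tendsto (fun L : ℕ => 2 * Real.log 10 + Real.log 10 * (1 / (L : ℝ))) atTop
        (𝓝 (2 * Real.log 10 + Real.log 10 * 0)) :=
      tendsto_const_nhds.add (tendsto_const_nhds.mul (tendsto_one_div_atTop_nhds_zero_nat (𝕜 := ℝ)))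
    rw [mul_zero, add_zero] at h1
    refine h1.congr' ?_
    filter_upwards [eventually_ge_atTop 1] with L hL
    have hL0 : (0 : ℝ) < L := by exact_mod_cast hL
    push_cast
    rw [Real.log_pow]
    push_cast
    field_simp
  mem := by
    filter_upwards with L v hv
    unfold SP palin at hv
    unfold TD at hd
    rw [mem_filter, mem_filter, mem_range] at hv
    rw [mem_filter, mem_Icc] at hd
    refine ⟨hv.1.2.1, hv.1.1.le, ?_⟩
    have h1 : v.gcd 10 = (v % 10).gcd 10 := by rw [Nat.gcd_comm v 10, Nat.gcd_rec]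
    rw [Nat.Coprime, h1, hv.2]
    exact hd.2
  big := by
    intro K
    filter_upwards [pow_small K, eventually_ge_atTop 1] with L hL hL1
    have h1 : ((L ^ K : ℕ) : ℝ) ≤ (10 : ℝ) ^ ((3 / 5 : ℝ) * L) :=
      (by exact_mod_cast hL : ((L ^ K : ℕ) : ℝ) ≤ (⌊(10 : ℝ) ^ ((3 / 5 : ℝ) * L)⌋₊ : ℝ)).trans (Nat.floor_le (by positivity))
    have h2 : (10 : ℝ) ^ ((3 / 5 : ℝ) * L) ≤ (10 : ℝ) ^ (L : ℝ) := by
      refine Real.rpow_le_rpow_of_exponent_le (by norm_num) ?_
      have : (0 : ℝ) ≤ L := Nat.cast_nonneg _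
      linarith
    rw [Real.rpow_natCast] at h2
    rw [Nat.cast_pow] at h1
    exact h1.trans h2
  dist := by
    intro K A
    filter_upwards [BV2 A, pow_small K, eventually_ge_atTop 1] with L h1 h2 hL r
    have h3 : ∀ m ∈ (Icc 1 (L ^ K)).filter (fun m => m.Coprime 10),
        |(((SP d L).filter (fun v => v % m = r m % m)).card : ℝ) - 10 ^ L / m| ≤
          (m.divisors.card : ℝ) ^ 2 *
            |cnt L m (r m + (m - 1) * ((d - 1) * (10 ^ (2 * L) + 1))) - 10 ^ L / m| := by
      intro m hm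
      rw [mem_filter, mem_Icc] at hm
      rw [cardS d hd L hL m (r m) hm.1.1]
      have h5 : (1 : ℝ) ≤ (m.divisors.card : ℝ) ^ 2 := by
        have h6 : 1 ≤ m.divisors.card := Finset.card_pos.2 ⟨1, by
          rw [Nat.mem_divisors]
          exact ⟨one_dvd _, by omega⟩⟩
        have h7 : (1 : ℝ) ≤ m.divisors.card := by exact_mod_cast h6
        nlinarith
      exact le_mul_of_one_le_left (abs_nonneg _) h5
    refine (sum_le_sum h3).trans ?_
    refine le_trans ?_ (h1 (fun m => r m + (m - 1) * ((d - 1) * (10 ^ (2 * L) + 1))))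
    refine sum_le_sum_of_subset_of_nonneg (filter_subset_filter _ (Icc_subset_Icc le_rfl h2)) fun _ _ _ => by
      positivity

open MeasureTheory ProbabilityTheory
open Pool.Agent.T2H32.BF (Model)
open Pool.Agent.H559.HY (RS WW)
open Pool.Agent.H559.BS (Limit)

theorem tot10 : Nat.totient 10 = 4 := by decide

open Classical in
/-- the law for one digit and one residue class -/
theorem pal_law {Ω : Type*} [MeasurableSpace Ω] {P : Measure Ω} {a : ℕ → Ω → ℕ} (h : Model P a) (z : ℕ → ℕ)
    (hz : Limit z) (c : ℝ) (hc : 1 < c) (d : ℕ) (hd : d ∈ TD) (m r : ℕ) (hm : 0 < m) (hmc : m.Coprime 10)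
    (hr : r.Coprime m) :
    ∀ᵐ ω ∂P, Tendsto (fun L : ℕ => (((palin L).filter (fun v => v ∈ RS z (WW c) (fun q => a q ω) ∧ v % 10 = d ∧
      v % m = r % m)).card : ℝ) * (L * Real.log 10) / 10 ^ L) atTop (𝓝 (5 / 4 / m.totient)) := by
  filter_upwards [sparse ((Dpal d hd).res m r hm hmc hr) h z hz c hc] with ω hω
  have hlog : 0 < Real.log 10 := Real.log_pos (by norm_num)
  have hm0 : (0 : ℝ) < m := by exact_mod_cast hm
  have hφ : (0 : ℝ) < m.totient := by exact_mod_cast Nat.totient_pos.2 hm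
  have h1 := hω.mul_const (Real.log 10 / m)
  have e1 : ((10 * m : ℕ) : ℝ) / ((10 * m).totient : ℝ) / (2 * Real.log 10) * (Real.log 10 / m) = 5 / 4 / m.totient := by
    rw [Nat.totient_mul hmc.symm, tot10]
    push_cast
    field_simp
    norm_num
  rw [e1] at h1
  refine h1.congr fun L => ?_
  have e2 : (palin L).filter (fun v => v ∈ RS z (WW c) (fun q => a q ω) ∧ v % 10 = d ∧ v % m = r % m) =
      ((SP d L).filter (fun v => v % m = r % m)).filter (fun v => v ∈ RS z (WW c) (fun q => a q ω)) := by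
    ext v
    simp only [SP, mem_filter]
    tauto
  rw [e2]
  have h10 : (10 : ℝ) ^ L ≠ 0 := by positivity
  field_simp

end Pool.Agent.H559.PA
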